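import Pool.Agent.H258.Spin.Def

/-!
# The trace vector of a tower
-/

namespace Pool.Agent.H258.Spin

open scoped InnerProductSpace ComplexOrder
open Matrix

variable {n : ℕ} {H : Type*} [NormedAddCommGroup H] [InnerProductSpace ℂ H] [CompleteSpace H]

theorem gen_comm {S : Set (H →L[ℂ] H)} {x r : H →L[ℂ] H} (hx : x ∈ generated S)
    (hr : ∀ s ∈ S, s * r = r * s ∧ star s * r = r * star s) : r * x = x * r := by
  have h1 : x ∈ StarSubalgebra.centralizer ℂ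
    (StarSubalgebra.centralizer ℂ S : Set (H →L[ℂ] H)) := hx
  rw [StarSubalgebra.mem_centralizer_iff] at h1
  refine (h1 r ?_).1
  rw [SetLike.mem_coe, StarSubalgebra.mem_centralizer_iff]
  exact hr

theorem subset_gen {S : Set (H →L[ℂ] H)} {s : H →L[ℂ] H} (hs : s ∈ S) : s ∈ generated S := by
  show s ∈ StarSubalgebra.centralizer ℂ (StarSubalgebra.centralizer ℂ S : Set (H →L[ℂ] H))
  rw [StarSubalgebra.mem_centralizer_iff]
  intro g hg
  rw [SetLike.mem_coe, StarSubalgebra.mem_centralizer_iff] at hg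
  obtain ⟨h1, h2⟩ := hg s hs
  refine ⟨h1.symm, ?_⟩
  have := congrArg star h2
  rw [star_mul, star_mul, star_star] at this
  exact this

namespace Data

variable (D : Data n H)

theorem alg_le_succ (j : ℕ) : D.alg j ≤ D.alg (j + 1) := by
  rcases j with _ | j
  · show StarAlgebra.adjoin ℂ _ ≤ StarAlgebra.adjoin ℂ _
    refine StarAlgebra.adjoin_le ?_
    rintro _ ⟨d, rfl⟩
    exact StarAlgebra.subset_adjoin ℂ _ ⟨_, rfl⟩
  · show D.alg (j + 1) ≤ StarAlgebra.adjoin ℂ _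
    intro x hx
    exact StarAlgebra.subset_adjoin ℂ _ (Or.inl hx)

theorem alg_mono {j k : ℕ} (h : j ≤ k) : D.alg j ≤ D.alg k := by
  induction k, h using Nat.le_induction with
  | base => exact le_rfl
  | succ k _ ih => exact ih.trans (D.alg_le_succ k)

theorem e_mem (j : ℕ) : D.e j ∈ D.alg (j + 2) :=
  StarAlgebra.subset_adjoin ℂ _ (Or.inr rfl)

theorem ι_mem (a : Matrix (Fin n) (Fin n) ℂ) : D.ι a ∈ D.alg 1 :=
  StarAlgebra.subset_adjoin ℂ _ ⟨a, rfl⟩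

/-- The *-algebra generated by the whole tower. -/
noncomputable def big : StarSubalgebra ℂ (H →L[ℂ] H) :=
  StarAlgebra.adjoin ℂ (Set.range D.ι ∪ Set.range D.e)

theorem alg_le_big (j : ℕ) : D.alg j ≤ D.big := by
  have h1 : D.alg 1 ≤ D.big := by
    show StarAlgebra.adjoin ℂ _ ≤ StarAlgebra.adjoin ℂ _
    exact StarAlgebra.adjoin_mono (Set.subset_union_left)
  have h2 : ∀ j, D.alg (j + 1) ≤ D.big := by
    intro j
    induction j with
    | zero => exact h1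
    | succ j ih =>
      show StarAlgebra.adjoin ℂ _ ≤ D.big
      refine StarAlgebra.adjoin_le ?_
      rintro x (hx | hx)
      · exact ih hx
      · rw [Set.mem_singleton_iff] at hx
        subst hx
        exact StarAlgebra.subset_adjoin ℂ _ (Or.inr ⟨j, rfl⟩)
  exact (D.alg_le_succ j).trans (h2 j)

theorem exists_alg {x : H →L[ℂ] H} (hx : x ∈ D.big) : ∃ j, x ∈ D.alg j := by
  induction hx using StarAlgebra.adjoin_induction with
  | mem x hx =>
    rcases hx with ⟨a, rfl⟩ | ⟨j, rfl⟩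
    · exact ⟨1, D.ι_mem a⟩
    · exact ⟨j + 2, D.e_mem j⟩
  | algebraMap c => exact ⟨0, algebraMap_mem _ c⟩
  | add x y _ _ hx hy =>
    obtain ⟨i, hi⟩ := hx
    obtain ⟨j, hj⟩ := hy
    exact ⟨max i j, add_mem (D.alg_mono (le_max_left _ _) hi) (D.alg_mono (le_max_right _ _) hj)⟩
  | mul x y _ _ hx hy =>
    obtain ⟨i, hi⟩ := hx
    obtain ⟨j, hj⟩ := hy
    exact ⟨max i j, mul_mem (D.alg_mono (le_max_left _ _) hi) (D.alg_mono (le_max_right _ _) hj)⟩
  | star x _ hx =>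
    obtain ⟨i, hi⟩ := hx
    exact ⟨i, star_mem hi⟩

theorem τ_add (x y : H →L[ℂ] H) : D.τ (x + y) = D.τ x + D.τ y := by
  simp [τ, inner_add_right]

theorem τ_sub (x y : H →L[ℂ] H) : D.τ (x - y) = D.τ x - D.τ y := by
  simp [τ, inner_sub_right]

theorem τ_smul (c : ℂ) (x : H →L[ℂ] H) : D.τ (c • x) = c * D.τ x := by
  simp [τ, inner_smul_right]

theorem inner_eq_τ (x y : H →L[ℂ] H) : ⟪x D.Ω, y D.Ω⟫_ℂ = D.τ (star x * y) := by
  show _ = ⟪D.Ω, (star x * y) D.Ω⟫_ℂ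
  rw [ContinuousLinearMap.mul_apply, ContinuousLinearMap.star_eq_adjoint,
    ContinuousLinearMap.adjoint_inner_right]

namespace IsTower

variable {D} (hD : D.IsTower)
include hD

theorem trace_big {x y : H →L[ℂ] H} (hx : x ∈ D.big) (hy : y ∈ D.big) :
    D.τ (x * y) = D.τ (y * x) := by
  obtain ⟨i, hi⟩ := D.exists_alg hx
  obtain ⟨j, hj⟩ := D.exists_alg hy
  exact hD.tracial (max i j) x (D.alg_mono (le_max_left _ _) hi) y
    (D.alg_mono (le_max_right _ _) hj)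

theorem cyclic_big {η : H} (h : ∀ x ∈ D.big, ⟪η, x D.Ω⟫_ℂ = 0) : η = 0 :=
  hD.cyclic η fun j x hx => h x (D.alg_le_big j hx)

/-- `‖y a Ω‖ ≤ ‖a‖ ‖y Ω‖`. -/
theorem norm_mul_le {y a : H →L[ℂ] H} (hy : y ∈ D.big) (ha : a ∈ D.big) :
    ‖y (a D.Ω)‖ ≤ ‖a‖ * ‖y D.Ω‖ := by
  have hsq : ∀ x : H →L[ℂ] H, (‖x D.Ω‖ ^ 2 : ℝ) = (D.τ (star x * x)).re := by
    intro x
    rw [← inner_eq_τ, inner_self_eq_norm_sq_to_K]
    norm_cast
  have h1 : ‖(y * a) D.Ω‖ ^ 2 = ‖(star a * star y) D.Ω‖ ^ 2 := by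
    rw [hsq, hsq, star_mul, star_mul, star_star, star_star]
    rw [hD.trace_big (mul_mem (star_mem ha) (star_mem hy)) (mul_mem hy ha)]
  have h2 : ‖(star y) D.Ω‖ ^ 2 = ‖y D.Ω‖ ^ 2 := by
    rw [hsq, hsq, star_star, hD.trace_big hy (star_mem hy)]
  have h3 : ‖(star y) D.Ω‖ = ‖y D.Ω‖ := by
    have := (sq_eq_sq₀ (norm_nonneg _) (norm_nonneg _)).1 h2
    exact this
  have h4 : ‖(y * a) D.Ω‖ = ‖(star a * star y) D.Ω‖ :=
    (sq_eq_sq₀ (norm_nonneg _) (norm_nonneg _)).1 h1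
  calc ‖y (a D.Ω)‖ = ‖(y * a) D.Ω‖ := rfl
    _ = ‖(star a) ((star y) D.Ω)‖ := h4
    _ ≤ ‖star a‖ * ‖(star y) D.Ω‖ := (star a).le_opNorm _
    _ = ‖a‖ * ‖y D.Ω‖ := by rw [norm_star, h3]

theorem dense_big : Dense {v : H | ∃ x ∈ D.big, v = x D.Ω} := by
  let K : Submodule ℂ H :=
    { carrier := {v : H | ∃ x ∈ D.big, v = x D.Ω}
      add_mem' := by
        rintro _ _ ⟨x, hx, rfl⟩ ⟨y, hy, rfl⟩
        exact ⟨x + y, add_mem hx hy, rfl⟩
      zero_mem' := ⟨0, zero_mem _, rfl⟩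
      smul_mem' := by
        rintro c _ ⟨x, hx, rfl⟩
        exact ⟨c • x, SMulMemClass.smul_mem c hx, rfl⟩ }
  have h1 : Kᗮ = ⊥ := by
    rw [Submodule.eq_bot_iff]
    intro η hη
    refine hD.cyclic_big fun x hx => ?_
    exact (Submodule.mem_orthogonal' K η).1 hη _ ⟨x, hx, rfl⟩
  have h2 : K.topologicalClosure = ⊤ := by
    rw [Submodule.topologicalClosure_eq_top_iff]
    exact h1
  have h3 : Dense (K : Set H) := Submodule.dense_iff_topologicalClosure_eq_top.2 h2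
  exact h3

/-- Right multiplication by an element of the algebra of the tower. -/
theorem exists_right {a : H →L[ℂ] H} (ha : a ∈ D.big) :
    ∃ r : H →L[ℂ] H, (∀ y ∈ D.big, r (y D.Ω) = y (a D.Ω)) ∧ ∀ x ∈ D.R, r * x = x * r := by
  let Φ : D.big →ₗ[ℂ] H :=
    { toFun := fun y => (y : H →L[ℂ] H) D.Ω
      map_add' := fun y z => rfl
      map_smul' := fun c y => rfl }
  let Ψ : D.big →ₗ[ℂ] H :=
    { toFun := fun y => (y : H →L[ℂ] H) (a D.Ω)
      map_add' := fun y z => rfl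
      map_smul' := fun c y => rfl }
  have hdense : DenseRange Φ := by
    have : Set.range Φ = {v : H | ∃ x ∈ D.big, v = x D.Ω} := by
      ext v
      constructor
      · rintro ⟨y, rfl⟩
        exact ⟨y, y.2, rfl⟩
      · rintro ⟨x, hx, rfl⟩
        exact ⟨⟨x, hx⟩, rfl⟩
    rw [DenseRange, this]
    exact hD.dense_big
  have hb : ∃ C, ∀ y, ‖Ψ y‖ ≤ C * ‖Φ y‖ := ⟨‖a‖, fun y => hD.norm_mul_le y.2 ha⟩
  let r : H →L[ℂ] H := Ψ.extendOfNorm Φ
  have hr : ∀ y ∈ D.big, r (y D.Ω) = y (a D.Ω) := by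
    intro y hy
    exact LinearMap.extendOfNorm_eq hdense hb ⟨y, hy⟩
  have hc : ∀ s ∈ D.big, s * r = r * s := by
    intro s hs
    have h1 : Set.EqOn (s * r) (r * s) {v : H | ∃ x ∈ D.big, v = x D.Ω} := by
      rintro _ ⟨x, hx, rfl⟩
      show s (r (x D.Ω)) = r (s (x D.Ω))
      rw [hr x hx]
      exact (hr (s * x) (mul_mem hs hx)).symm
    have h2 := Continuous.ext_on hD.dense_big (s * r).continuous (r * s).continuous h1
    exact DFunLike.coe_injective h2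
  refine ⟨r, hr, fun x hx => gen_comm hx ?_⟩
  intro s hs
  have hs' : s ∈ D.big := StarAlgebra.subset_adjoin ℂ _ hs
  exact ⟨hc s hs', hc _ (star_mem hs')⟩

/-- The trace vector is separating for `R`. -/
theorem eq_zero_of_apply {x : H →L[ℂ] H} (hx : x ∈ D.R) (h : x D.Ω = 0) : x = 0 := by
  have h1 : Set.EqOn x (0 : H →L[ℂ] H) {v : H | ∃ y ∈ D.big, v = y D.Ω} := by
    rintro _ ⟨a, ha, rfl⟩
    obtain ⟨r, hr, hc⟩ := hD.exists_right ha
    have h2 : r D.Ω = a D.Ω := by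
      have := hr 1 (one_mem _)
      simpa using this
    have h3 : (r * x) D.Ω = (x * r) D.Ω := by rw [hc x hx]
    show x (a D.Ω) = 0
    rw [← h2]
    show (x * r) D.Ω = 0
    rw [← h3]
    show r (x D.Ω) = 0
    rw [h, map_zero]
  exact DFunLike.coe_injective
    (Continuous.ext_on hD.dense_big x.continuous (0 : H →L[ℂ] H).continuous h1)

theorem big_le_R {x : H →L[ℂ] H} (hx : x ∈ D.big) : x ∈ D.R := by
  have : D.big ≤ D.R.toStarSubalgebra := by
    refine StarAlgebra.adjoin_le ?_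
    intro s hs
    exact subset_gen hs
  exact this hx

/-- Invariance of the functional `y ↦ ⟨x Ω, y Ω⟩` under the unitaries which commute with `x`. -/
theorem inner_conj {x g y : H →L[ℂ] H} (hx : x ∈ D.R) (hg : g ∈ D.big) (hy : y ∈ D.big)
    (hgs : star g = g) (hgg : g * g = 1) (hxg : x * g = g * x) :
    ⟪x D.Ω, (g * y * g) D.Ω⟫_ℂ = ⟪x D.Ω, y D.Ω⟫_ℂ := by
  obtain ⟨r, hr, hc⟩ := hD.exists_right hg
  have hrΩ : r D.Ω = g D.Ω := by
    have := hr 1 (one_mem _)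
    simpa using this
  have h1 : ⟪x D.Ω, (g * y * g) D.Ω⟫_ℂ = ⟪x (g D.Ω), y (g D.Ω)⟫_ℂ := by
    have h2 : ⟪x D.Ω, (g * y * g) D.Ω⟫_ℂ = ⟪(star g) (x D.Ω), y (g D.Ω)⟫_ℂ := by
      rw [ContinuousLinearMap.star_eq_adjoint, ContinuousLinearMap.adjoint_inner_left]
      rfl
    rw [h2, hgs]
    congr 1
    show (g * x) D.Ω = (x * g) D.Ω
    rw [hxg]
  have h3 : ⟪x (g D.Ω), y (g D.Ω)⟫_ℂ = ⟪r (x D.Ω), r (y D.Ω)⟫_ℂ := by
    rw [hr y hy, ← hrΩ]
    have h4 : (r * x) D.Ω = (x * r) D.Ω := by rw [hc x hx]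
    have h5 : r (x D.Ω) = x (r D.Ω) := h4
    rw [h5, hrΩ]
  have h6 : (star r * r) (y D.Ω) = y D.Ω := by
    rw [← sub_eq_zero]
    refine hD.cyclic_big fun z hz => ?_
    rw [inner_sub_left, sub_eq_zero]
    have h7 : ⟪(star r * r) (y D.Ω), z D.Ω⟫_ℂ = ⟪r (y D.Ω), r (z D.Ω)⟫_ℂ := by
      rw [ContinuousLinearMap.mul_apply, ContinuousLinearMap.star_eq_adjoint,
        ContinuousLinearMap.adjoint_inner_left]
    rw [h7, hr y hy, hr z hz]
    show ⟪(y * g) D.Ω, (z * g) D.Ω⟫_ℂ = _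
    rw [inner_eq_τ, inner_eq_τ, star_mul, hgs]
    rw [show g * star y * (z * g) = g * (star y * (z * g)) by noncomm_ring,
      hD.trace_big hg (mul_mem (star_mem hy) (mul_mem hz hg))]
    congr 1
    rw [show star y * (z * g) * g = star y * z * (g * g) by noncomm_ring, hgg, mul_one]
  rw [h1, h3, ← ContinuousLinearMap.adjoint_inner_right]
  congr 1

end IsTower

end Data

end Pool.Agent.H258.Spin
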