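import Mathlib

/-!
# Towers of basic constructions of `Δ_n ⊂ M_n` and spin model subfactors: definitions

`H` is a complex Hilbert space.  A tower consists of a unital *-representation `ι` of `M_n` on `H`,
operators `e 0, e 1, e 2, ...` (the Jones projections) and a vector `Ω` (the trace vector).
-/

namespace Pool.Agent.H258.Spin

open scoped InnerProductSpace ComplexOrder
open Matrix

variable {n : ℕ} {H : Type*} [NormedAddCommGroup H] [InnerProductSpace ℂ H] [CompleteSpace H]

/-- The data of a tower over `Δ_n ⊂ M_n` on the Hilbert space `H`: a representation `ι` of `M_n`,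
a sequence of operators `e j` and a vector `Ω`. -/
structure Data (n : ℕ) (H : Type*) [NormedAddCommGroup H] [InnerProductSpace ℂ H]
    [CompleteSpace H] where
  ι : Matrix (Fin n) (Fin n) ℂ →⋆ₐ[ℂ] (H →L[ℂ] H)
  e : ℕ → (H →L[ℂ] H)
  Ω : H

/-- The functional `τ x = ⟨Ω, x Ω⟩`. -/
noncomputable def Data.τ (D : Data n H) (x : H →L[ℂ] H) : ℂ := ⟪D.Ω, x D.Ω⟫_ℂ

/-- The algebras of the tower: `alg 0 = Δ_n`, `alg 1 = M_n`, and `alg (j + 2)` is generated by
`alg (j + 1)` and `e j`. -/
noncomputable def Data.alg (D : Data n H) : ℕ → StarSubalgebra ℂ (H →L[ℂ] H)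
  | 0 => StarAlgebra.adjoin ℂ (Set.range fun d : Fin n → ℂ => D.ι (diagonal d))
  | 1 => StarAlgebra.adjoin ℂ (Set.range D.ι)
  | (j + 2) => StarAlgebra.adjoin ℂ ((D.alg (j + 1) : Set (H →L[ℂ] H)) ∪ {D.e j})

/-- `D` is a tower of basic constructions of `Δ_n ⊂ M_n` in the GNS representation of its
Markov trace: `Ω` is a unit vector, cyclic for the union of the algebras `alg j`; `τ` is a trace;
`e j` is a projection which commutes with `alg j` and implements the trace preserving conditional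
expectation of `alg (j + 1)` onto `alg j` (so that `alg (j + 2)`, which is generated by
`alg (j + 1)` and `e j`, is the basic construction of `alg j ⊂ alg (j + 1)`), and `τ` has
the Markov property `τ (x (e j)) = τ x / n` for `x ∈ alg (j + 1)`. -/
structure Data.IsTower (D : Data n H) : Prop where
  norm_one : ‖D.Ω‖ = 1
  cyclic : ∀ η : H, (∀ j, ∀ x ∈ D.alg j, ⟪η, x D.Ω⟫_ℂ = 0) → η = 0
  tracial : ∀ j, ∀ x ∈ D.alg j, ∀ y ∈ D.alg j, D.τ (x * y) = D.τ (y * x)
  star_e : ∀ j, star (D.e j) = D.e j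
  idem_e : ∀ j, D.e j * D.e j = D.e j
  comm : ∀ j, ∀ x ∈ D.alg j, D.e j * x = x * D.e j
  expect : ∀ j, ∀ x ∈ D.alg (j + 1), ∃ y ∈ D.alg j,
    D.e j * x * D.e j = y * D.e j ∧ ∀ z ∈ D.alg j, D.τ (y * z) = D.τ (x * z)
  markov : ∀ j, ∀ x ∈ D.alg (j + 1), D.τ (x * D.e j) = D.τ x / n

/-- The von Neumann algebra generated by a set of operators: the double commutant of the set
together with the adjoints of its elements. -/
noncomputable def generated (S : Set (H →L[ℂ] H)) : VonNeumannAlgebra H where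
  toStarSubalgebra := StarSubalgebra.centralizer ℂ
    (StarSubalgebra.centralizer ℂ S : Set (H →L[ℂ] H))
  centralizer_centralizer' := by
    simp

/-- The algebra `R`, generated by the tower. -/
noncomputable def Data.R (D : Data n H) : VonNeumannAlgebra H :=
  generated (Set.range D.ι ∪ Set.range D.e)

/-- The spin model subfactor `R_u`, generated by `u Δ_n u*` and the Jones projections, that is,
by the tower built from `ℂ ⊂ u Δ_n u*`. -/
noncomputable def Data.Ru (D : Data n H) (u : Matrix (Fin n) (Fin n) ℂ) : VonNeumannAlgebra H :=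
  generated ((Set.range fun d : Fin n → ℂ => D.ι (u * diagonal d * uᴴ)) ∪ Set.range D.e)

/-- A unitary complex Hadamard matrix: a unitary matrix, all entries of which have the
modulus `1 / √n`. -/
def IsHadamard (u : Matrix (Fin n) (Fin n) ℂ) : Prop :=
  u * uᴴ = 1 ∧ ∀ i j, ‖u i j‖ ^ 2 = 1 / n

/-- A von Neumann algebra with trivial center. -/
def IsFactor (N : VonNeumannAlgebra H) : Prop :=
  ∀ x ∈ N, (∀ y ∈ N, x * y = y * x) → ∃ c : ℂ, x = c • (1 : H →L[ℂ] H)

/-- The relative commutant `N' ∩ M` is trivial. -/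
def IsIrreducible (N M : VonNeumannAlgebra H) : Prop :=
  ∀ x ∈ M, (∀ y ∈ N, x * y = y * x) → ∃ c : ℂ, x = c • (1 : H →L[ℂ] H)

/-- The matrices `u(z)` of the problem. -/
noncomputable def u (z : ℂ) : Matrix (Fin 4) (Fin 4) ℂ :=
  (1 / 2 : ℂ) • !![1, 1, 1, 1;
    1, Complex.I * z, -1, -(Complex.I * z);
    1, -1, 1, -1;
    1, -(Complex.I * z), -1, Complex.I * z]

/-- For all `a`, `b` of modulus one, `u(a)` and `u(b)` are unitary Hadamard matrices and the
intersection of `R_{u(a)}` and `R_{u(b)}` is a factor, with trivial relative commutant in `R`. -/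
def Data.Q1 (D : Data 4 H) : Prop :=
  ∀ a b : ℂ, ‖a‖ = 1 → ‖b‖ = 1 → IsHadamard (u a) ∧ IsHadamard (u b) ∧
    ∃ N : VonNeumannAlgebra H, (∀ x, x ∈ N ↔ x ∈ D.Ru (u a) ∧ x ∈ D.Ru (u b)) ∧
      IsFactor N ∧ IsIrreducible N D.R

end Pool.Agent.H258.Spin
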