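import Pool.Agent.H258.Spin.Main

/-!
# Intersections of the spin model subfactors `R_{u(a)}`
-/

namespace Pool.Agent.H258.Spin

open scoped InnerProductSpace ComplexOrder
open Matrix

variable {H : Type*} [NormedAddCommGroup H] [InnerProductSpace ℂ H] [CompleteSpace H]

/-- The matrices `u(z)` are unitary complex Hadamard matrices. -/
theorem isHadamard_u {z : ℂ} (hz : ‖z‖ = 1) : IsHadamard (u z) := by
  have hzz : z * (starRingEnd ℂ) z = 1 := by
    rw [Complex.mul_conj, Complex.normSq_eq_norm_sq, hz]
    norm_num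
  have hI : Complex.I * Complex.I = -1 := Complex.I_mul_I
  constructor
  · ext i j
    rw [Matrix.mul_apply, Fin.sum_univ_four]
    simp only [conjTranspose_apply]
    fin_cases i <;> fin_cases j <;>
      simp [u] <;>
      first
      | ring1
      | linear_combination (1 / 2 : ℂ) * hzz - (1/2) * (z * (starRingEnd ℂ) z) * hI
      | linear_combination (-1 / 2 : ℂ) * hzz + (1/2) * (z * (starRingEnd ℂ) z) * hI
  · intro i j
    fin_cases i <;> fin_cases j <;> simp [u, hz] <;> norm_num

/-- The first column of `u(z)` does not depend on `z`. -/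
theorem first_column (z : ℂ) : u z * diagonal (Pi.single 0 1) * (u z)ᴴ =
    (1 / 4 : ℂ) • Matrix.of fun _ _ => 1 := by
  ext i j
  rw [Matrix.mul_apply, Fin.sum_univ_four]
  simp only [conjTranspose_apply, mul_diagonal]
  fin_cases i <;> fin_cases j <;> simp [u] <;> norm_num

/-- The intersection of two von Neumann algebras. -/
noncomputable def inter (A B : VonNeumannAlgebra H) : VonNeumannAlgebra H where
  toStarSubalgebra := A.toStarSubalgebra ⊓ B.toStarSubalgebra
  centralizer_centralizer' := by
    refine Set.Subset.antisymm ?_ Set.subset_centralizer_centralizer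
    intro x hx
    constructor
    · have h : x ∈ Set.centralizer (Set.centralizer (A : Set (H →L[ℂ] H))) :=
        Set.centralizer_subset (Set.centralizer_subset Set.inter_subset_left) hx
      rwa [A.centralizer_centralizer] at h
    · have h : x ∈ Set.centralizer (Set.centralizer (B : Set (H →L[ℂ] H))) :=
        Set.centralizer_subset (Set.centralizer_subset Set.inter_subset_right) hx
      rwa [B.centralizer_centralizer] at h

theorem mem_inter (A B : VonNeumannAlgebra H) (x : H →L[ℂ] H) :
    x ∈ inter A B ↔ x ∈ A ∧ x ∈ B := Iff.rfl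

namespace Data

variable {D : Data 4 H}

/-- The Jones projections belong to `R_u`. -/
theorem e_mem_Ru (v : Matrix (Fin 4) (Fin 4) ℂ) (j : ℕ) : D.e j ∈ D.Ru v :=
  subset_gen (Or.inr ⟨j, rfl⟩)

/-- The relative commutant of `R_{u(a)} ∩ R_{u(b)}` in `R` is trivial. -/
theorem IsTower.irreducible (hD : D.IsTower) (a b : ℂ) {x : H →L[ℂ] H}
    (hx : x ∈ D.R) (h : ∀ y ∈ inter (D.Ru (u a)) (D.Ru (u b)), x * y = y * x) :
    ∃ c : ℂ, x = c • (1 : H →L[ℂ] H) := by
  obtain ⟨d, rfl⟩ := hD.diag_of_comm hx fun j =>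
    h _ ⟨e_mem_Ru (u a) j, e_mem_Ru (u b) j⟩
  set J : Matrix (Fin 4) (Fin 4) ℂ := (1 / 4 : ℂ) • Matrix.of fun _ _ => 1 with hJ
  have hJm : D.ι J ∈ inter (D.Ru (u a)) (D.Ru (u b)) := by
    constructor
    · show D.ι J ∈ D.Ru (u a)
      rw [hJ, ← first_column a]
      exact subset_gen (Or.inl ⟨_, rfl⟩)
    · show D.ι J ∈ D.Ru (u b)
      rw [hJ, ← first_column b]
      exact subset_gen (Or.inl ⟨_, rfl⟩)
  have h1 := h _ hJm
  rw [← map_mul, ← map_mul] at h1
  have hinj : ∀ m : Matrix (Fin 4) (Fin 4) ℂ, D.ι m = 0 → m = 0 := by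
    intro m hm
    ext i j
    have h2 : D.τ (D.ι (m * Matrix.single j i 1)) = 0 := by
      rw [map_mul, hm, zero_mul]
      simp [τ]
    rw [hD.τ_ι] at h2
    rw [Finset.sum_eq_single i] at h2
    · rw [hD.τ_single, Matrix.mul_single_apply_same] at h2
      simpa using h2
    · intro k _ hk
      rw [Matrix.mul_single_apply_of_ne]
      · rw [zero_mul]
      · exact hk
    · intro h
      exact absurd (Finset.mem_univ i) h
  have h2 := hinj _ (show D.ι (diagonal d * J - J * diagonal d) = 0 by
    rw [map_sub, h1, sub_self])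
  refine ⟨d 0, ?_⟩
  have h3 : ∀ i, d i = d 0 := by
    intro i
    have h4 := congrFun (congrFun h2 i) 0
    simp [hJ, diagonal_mul, mul_diagonal] at h4
    linear_combination 4 * h4
  have h5 : diagonal d = (d 0) • (1 : Matrix (Fin 4) (Fin 4) ℂ) := by
    ext i j
    by_cases h : i = j
    · subst h
      simp [h3 i]
    · simp [h, diagonal_apply_ne]
  rw [h5, map_smul, map_one]

end Data

end Pool.Agent.H258.Spin
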