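import Pool.Agent.H258.Spin.Sub

/-!
# The elements of `R_u` which commute with the Jones projections
-/

namespace Pool.Agent.H258.Spin

open scoped InnerProductSpace ComplexOrder
open Matrix

variable {H : Type*} [NormedAddCommGroup H] [InnerProductSpace ℂ H] [CompleteSpace H]

namespace Data

/-- A sequence of subalgebras of the algebras of the tower which contain the Jones projections
and are preserved by the expectations. -/
structure Ladder (D : Data 4 H) (A : ℕ → StarSubalgebra ℂ (H →L[ℂ] H)) : Prop where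
  le_succ : ∀ j, A j ≤ A (j + 1)
  le_alg : ∀ j, A j ≤ D.alg j
  e_mem : ∀ j, D.e j ∈ A (j + 2)
  expect : ∀ j, ∀ y ∈ A (j + 1), ∃ y₀ ∈ A j, D.e j * y * D.e j = y₀ * D.e j

namespace Ladder

variable {D : Data 4 H} {A : ℕ → StarSubalgebra ℂ (H →L[ℂ] H)} (hA : D.Ladder A)
include hA

theorem mono {j k : ℕ} (h : j ≤ k) : A j ≤ A k := by
  induction k, h using Nat.le_induction with
  | base => exact le_rfl
  | succ k _ ih => exact ih.trans (hA.le_succ k)

theorem le_big (j : ℕ) : A j ≤ D.big := (hA.le_alg j).trans (D.alg_le_big j)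

end Ladder

namespace IsTower

variable {D : Data 4 H} (hD : D.IsTower) {u : Matrix (Fin 4) (Fin 4) ℂ}
  {A : ℕ → StarSubalgebra ℂ (H →L[ℂ] H)}
include hD

/-- The self-adjoint unitaries `g = 1 - 2 e`. -/
theorem g_props (hA : D.Ladder A) (j : ℕ) : star (1 - (2 : ℂ) • D.e j) = 1 - (2 : ℂ) • D.e j ∧
    (1 - (2 : ℂ) • D.e j) * (1 - (2 : ℂ) • D.e j) = 1 ∧
    (1 - (2 : ℂ) • D.e j) ∈ A (j + 2) := by
  refine ⟨?_, ?_, ?_⟩
  · rw [star_sub, star_one, star_smul, hD.star_e]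
    congr 2
    simp
  · have h := hD.idem_e j
    have : (1 - (2 : ℂ) • D.e j) * (1 - (2 : ℂ) • D.e j) =
        1 - (4 : ℂ) • D.e j + (4 : ℂ) • (D.e j * D.e j) := by
      rw [sub_mul, mul_sub, mul_sub, one_mul, mul_one, one_mul, smul_mul_smul_comm]
      module
    rw [this, h]
    module
  · exact sub_mem (one_mem _) (SMulMemClass.smul_mem _ (hA.e_mem j))

/-- The expectation preserves the trace. -/
theorem tau_expect (hA : D.Ladder A) {j : ℕ} {y y₀ z : H →L[ℂ] H} (hy : y ∈ A (j + 1))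
    (hy₀ : y₀ ∈ A j) (hyy : D.e j * y * D.e j = y₀ * D.e j) (hz : z ∈ A j) :
    D.τ (star z * y₀) = D.τ (star z * y) := by
  set e := D.e j with he
  have hyb := hA.le_big _ hy
  have heb : e ∈ D.big := D.alg_le_big _ (D.e_mem j)
  have hM : ∀ x ∈ A (j + 1), D.τ (x * e) = D.τ x / 4 := by
    intro x hx
    have := hD.markov j x (hA.le_alg _ hx)
    simpa using this
  have hz1 := hA.le_succ j hz
  have h2 : D.τ (star z * y₀ * e) = D.τ (star z * y₀) / 4 :=
    hM _ (mul_mem (star_mem hz1) (hA.le_succ j hy₀))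
  have h3 : D.τ (star z * y₀ * e) = D.τ (star z * y * e) := by
    calc D.τ (star z * y₀ * e) = D.τ (star z * (e * y * e)) := by
          rw [mul_assoc, hyy]
      _ = D.τ (star z * e * (y * e)) := by simp only [mul_assoc]
      _ = D.τ (e * star z * (y * e)) := by rw [hD.comm j _ (hA.le_alg j (star_mem hz))]
      _ = D.τ (e * (star z * (y * e))) := by rw [mul_assoc]
      _ = D.τ (star z * (y * e) * e) :=
          hD.trace_big heb (mul_mem (star_mem (hA.le_big _ hz1)) (mul_mem hyb heb))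
      _ = D.τ (star z * y * (e * e)) := by simp only [mul_assoc]
      _ = _ := by rw [hD.idem_e]
  have h4 : D.τ (star z * y * e) = D.τ (star z * y) / 4 := hM _ (mul_mem (star_mem hz1) hy)
  have h5 : D.τ (star z * y₀) / 4 = D.τ (star z * y) / 4 := by rw [← h2, h3, h4]
  linear_combination 4 * h5

/-- The orthogonality of `g y g` to the tower. -/
theorem orth_step {j : ℕ} {y z : H →L[ℂ] H} (hA : D.Ladder A) (hy : y ∈ A (j + 1))
    (h : ∀ z ∈ A j, D.τ (star z * y) = 0) (hz : z ∈ A (j + 1)) :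
    D.τ (star z * ((1 - (2 : ℂ) • D.e j) * y * (1 - (2 : ℂ) • D.e j))) = 0 := by
  set e := D.e j with he
  have hyb := hA.le_big _ hy
  have hzb := hA.le_big _ hz
  have heb : e ∈ D.big := D.alg_le_big _ (D.e_mem j)
  have hM : ∀ x ∈ A (j + 1), D.τ (x * e) = D.τ x / 4 := by
    intro x hx
    have := hD.markov j x (hA.le_alg _ hx)
    simpa using this
  obtain ⟨y₀, hy₀, hyy⟩ := hA.expect j y hy
  have h1 : ∀ z ∈ A j, D.τ (star z * y₀) = 0 := fun z hz => by
    rw [hD.tau_expect hA hy hy₀ hyy hz, h z hz]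
  have h2 : y₀ = 0 := hD.eq_zero_of_τ (hA.le_big _ hy₀) (h1 _ hy₀)
  have h3 : e * y * e = 0 := by rw [hyy, h2, zero_mul]
  have h4 : (1 - (2 : ℂ) • e) * y * (1 - (2 : ℂ) • e) =
      y - (2 : ℂ) • (e * y) - (2 : ℂ) • (y * e) := by
    have : (1 - (2 : ℂ) • e) * y * (1 - (2 : ℂ) • e) =
        y - (2 : ℂ) • (e * y) - (2 : ℂ) • (y * e) + (4 : ℂ) • (e * y * e) := by
      simp only [sub_mul, mul_sub, one_mul, mul_one, smul_mul_assoc, mul_smul_comm]
      module
    rw [this, h3, smul_zero, add_zero]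
  rw [h4]
  have h5 : D.τ (star z * (e * y)) = D.τ (star z * y) / 4 := by
    calc D.τ (star z * (e * y)) = D.τ (star z * e * y) := by rw [mul_assoc]
      _ = D.τ (y * (star z * e)) := hD.trace_big (mul_mem (star_mem hzb) heb) hyb
      _ = D.τ (y * star z * e) := by rw [mul_assoc]
      _ = D.τ (y * star z) / 4 := hM _ (mul_mem hy (star_mem hz))
      _ = _ := by rw [hD.trace_big hyb (star_mem hzb)]
  have h6 : D.τ (star z * (y * e)) = D.τ (star z * y) / 4 := by
    rw [← mul_assoc]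
    exact hM _ (mul_mem (star_mem hz) hy)
  rw [mul_sub, mul_sub, mul_smul_comm, mul_smul_comm, τ_sub, τ_sub, τ_smul, τ_smul, h5, h6]
  ring

/-- A vector of the form `x Ω`, `x` commuting with the Jones projections, is orthogonal to the
differences of the levels of the tower. -/
theorem orth_diff {x y : H →L[ℂ] H} (hA : D.Ladder A) (hx : x ∈ D.R)
    (hxe : ∀ j, x * D.e j = D.e j * x) {j : ℕ} (hy : y ∈ A (j + 1))
    (h : ∀ z ∈ A j, D.τ (star z * y) = 0) : ⟪x D.Ω, y D.Ω⟫_ℂ = 0 := by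
  let g : ℕ → (H →L[ℂ] H) := fun k => 1 - (2 : ℂ) • D.e k
  let seq : ℕ → (H →L[ℂ] H) := fun k => Nat.rec y (fun k a => g (j + k) * a * g (j + k)) k
  have hs0 : seq 0 = y := rfl
  have hs1 : ∀ k, seq (k + 1) = g (j + k) * seq k * g (j + k) := fun k => rfl
  have hmem : ∀ k, seq k ∈ A (j + k + 1) ∧
      ∀ z ∈ A (j + k), D.τ (star z * seq k) = 0 := by
    intro k
    induction k with
    | zero => exact ⟨hy, h⟩
    | succ k ih =>
      rw [hs1]
      refine ⟨?_, fun z hz => hD.orth_step hA ih.1 ih.2 hz⟩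
      have hg := (hD.g_props hA (j + k)).2.2
      have h1 := hA.le_succ _ ih.1
      exact mul_mem (mul_mem hg h1) hg
  have hgb : ∀ k, g k ∈ D.big := fun k =>
    hA.le_big _ (hD.g_props hA k).2.2
  have hin : ∀ k, ⟪x D.Ω, seq k D.Ω⟫_ℂ = ⟪x D.Ω, y D.Ω⟫_ℂ := by
    intro k
    induction k with
    | zero => rfl
    | succ k ih =>
      rw [hs1, ← ih]
      refine hD.inner_conj hx (hgb _) (hA.le_big _ (hmem k).1)
        (hD.g_props hA (j + k)).1 (hD.g_props hA (j + k)).2.1 ?_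
      show x * (1 - (2 : ℂ) • D.e (j + k)) = (1 - (2 : ℂ) • D.e (j + k)) * x
      rw [mul_sub, sub_mul, mul_one, one_mul, mul_smul_comm, smul_mul_assoc, hxe]
  have hno : ∀ k, ⟪seq k D.Ω, seq k D.Ω⟫_ℂ = ⟪y D.Ω, y D.Ω⟫_ℂ := by
    intro k
    induction k with
    | zero => rfl
    | succ k ih =>
      rw [← ih, inner_eq_τ, inner_eq_τ, hs1]
      have hb := hA.le_big _ (hmem k).1
      obtain ⟨h1, h2, -⟩ := hD.g_props hA (j + k)
      have h1' : star (g (j + k)) = g (j + k) := h1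
      have h2' : g (j + k) * g (j + k) = 1 := h2
      calc D.τ (star (g (j + k) * seq k * g (j + k)) * (g (j + k) * seq k * g (j + k)))
          = D.τ (g (j + k) * (star (seq k) * (g (j + k) * g (j + k)) * seq k * g (j + k))) := by
            rw [star_mul, star_mul, h1']
            simp only [mul_assoc]
        _ = D.τ (g (j + k) * (star (seq k) * seq k * g (j + k))) := by rw [h2', mul_one]
        _ = D.τ (star (seq k) * seq k * g (j + k) * g (j + k)) :=
            hD.trace_big (hgb _) (mul_mem (mul_mem (star_mem hb) hb) (hgb _))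
        _ = D.τ (star (seq k) * seq k * (g (j + k) * g (j + k))) := by rw [mul_assoc]
        _ = _ := by rw [h2', mul_one]
  have horth : ∀ k l, k < l → ⟪seq k D.Ω, seq l D.Ω⟫_ℂ = 0 := by
    intro k l hkl
    rw [inner_eq_τ]
    exact (hmem l).2 _ (hA.mono (by omega) (hmem k).1)
  have horth' : ∀ k l, k ≠ l → ⟪seq k D.Ω, seq l D.Ω⟫_ℂ = 0 := by
    intro k l hkl
    rcases lt_or_gt_of_ne hkl with h | h
    · exact horth k l h
    · rw [← inner_conj_symm, horth l k h, map_zero]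
  by_cases hy0 : y D.Ω = 0
  · rw [hy0, inner_zero_right]
  have hn0 : ‖y D.Ω‖ ≠ 0 := norm_ne_zero_iff.2 hy0
  have hnorm : ∀ k, ‖seq k D.Ω‖ = ‖y D.Ω‖ := by
    intro k
    have := hno k
    rw [inner_self_eq_norm_sq_to_K, inner_self_eq_norm_sq_to_K] at this
    have h2 : ‖seq k D.Ω‖ ^ 2 = ‖y D.Ω‖ ^ 2 := by exact_mod_cast this
    exact (sq_eq_sq₀ (norm_nonneg _) (norm_nonneg _)).1 h2
  let v : ℕ → H := fun k => ((‖y D.Ω‖ : ℂ)⁻¹) • seq k D.Ω
  have hv : Orthonormal ℂ v := by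
    constructor
    · intro k
      show ‖((‖y D.Ω‖ : ℂ)⁻¹) • seq k D.Ω‖ = 1
      rw [norm_smul, norm_inv, Complex.norm_real, norm_norm, hnorm, inv_mul_cancel₀ hn0]
    · intro k l hkl
      show ⟪((‖y D.Ω‖ : ℂ)⁻¹) • seq k D.Ω, ((‖y D.Ω‖ : ℂ)⁻¹) • seq l D.Ω⟫_ℂ = 0
      rw [inner_smul_left, inner_smul_right, horth' k l hkl, mul_zero, mul_zero]
  have hsum := hv.inner_products_summable (x D.Ω)
  have hterm : ∀ k, ‖⟪v k, x D.Ω⟫_ℂ‖ ^ 2 = ‖⟪v 0, x D.Ω⟫_ℂ‖ ^ 2 := by
    intro k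
    show ‖⟪((‖y D.Ω‖ : ℂ)⁻¹) • seq k D.Ω, x D.Ω⟫_ℂ‖ ^ 2 =
      ‖⟪((‖y D.Ω‖ : ℂ)⁻¹) • seq 0 D.Ω, x D.Ω⟫_ℂ‖ ^ 2
    rw [inner_smul_left, inner_smul_left, ← inner_conj_symm (seq k D.Ω),
      ← inner_conj_symm (seq 0 D.Ω), hin k, hin 0]
  have hconst : Summable fun _ : ℕ => ‖⟪v 0, x D.Ω⟫_ℂ‖ ^ 2 := by
    refine hsum.congr fun k => ?_
    exact (hterm k)
  have h0 : ‖⟪v 0, x D.Ω⟫_ℂ‖ ^ 2 = 0 := (summable_const_iff _).1 hconst
  have h1 : ⟪v 0, x D.Ω⟫_ℂ = 0 := by simpa using h0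
  have h2 : ⟪((‖y D.Ω‖ : ℂ)⁻¹) • seq 0 D.Ω, x D.Ω⟫_ℂ = 0 := h1
  rw [inner_smul_left, mul_eq_zero] at h2
  rcases h2 with h2 | h2
  · exfalso
    apply hn0
    simpa using h2
  · rw [← inner_conj_symm]
    rw [hs0] at h2
    rw [h2, map_zero]

omit hD in
theorem Ru_le_R {x : H →L[ℂ] H} (hx : x ∈ D.Ru u) : x ∈ D.R := by
  show x ∈ StarSubalgebra.centralizer ℂ
    (StarSubalgebra.centralizer ℂ (Set.range D.ι ∪ Set.range D.e) : Set (H →L[ℂ] H))
  have hx' : x ∈ StarSubalgebra.centralizer ℂ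
    (StarSubalgebra.centralizer ℂ ((Set.range fun d : Fin 4 → ℂ => D.ι (u * diagonal d * uᴴ)) ∪
      Set.range D.e) : Set (H →L[ℂ] H)) := hx
  rw [StarSubalgebra.mem_centralizer_iff] at hx' ⊢
  intro g hg
  refine hx' g ?_
  rw [SetLike.mem_coe, StarSubalgebra.mem_centralizer_iff] at hg ⊢
  intro s hs
  refine hg s ?_
  rcases hs with ⟨d, rfl⟩ | hs
  · exact Or.inl ⟨_, rfl⟩
  · exact Or.inr hs

/-- The tower of the spin model subfactor. -/
theorem ladder_sub (hu : IsHadamard u) : D.Ladder (D.sub u) where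
  le_succ := D.sub_le_succ u
  le_alg := D.sub_le_alg u
  e_mem := D.e_mem_sub u
  expect := fun j _ hy => hD.expect_sub u hu j hy

/-- The whole tower. -/
theorem ladder_alg : D.Ladder D.alg where
  le_succ := D.alg_le_succ
  le_alg := fun _ => le_rfl
  e_mem := D.e_mem
  expect := fun j y hy => by
    obtain ⟨y₀, h0, h1, -⟩ := hD.expect j y hy
    exact ⟨y₀, h0, h1⟩

/-- An element of `R_u` which commutes with all Jones projections is a scalar. -/
theorem scalar_of_comm {x : H →L[ℂ] H} (hu : IsHadamard u) (hx : x ∈ D.Ru u)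
    (hxe : ∀ j, x * D.e j = D.e j * x) : ∃ c : ℂ, x = c • (1 : H →L[ℂ] H) := by
  set c : ℂ := D.τ x with hc
  set x' : H →L[ℂ] H := x - c • 1 with hx'
  have hx'u : x' ∈ D.Ru u := by
    have h1 : (c • (1 : H →L[ℂ] H)) ∈ (D.Ru u).toStarSubalgebra :=
      SMulMemClass.smul_mem c (one_mem _)
    have h2 : x ∈ (D.Ru u).toStarSubalgebra := hx
    exact sub_mem h2 h1
  have hx'R : x' ∈ D.R := Ru_le_R hx'u
  have hx'e : ∀ j, x' * D.e j = D.e j * x' := by
    intro j
    rw [hx', sub_mul, mul_sub, hxe, smul_mul_assoc, mul_smul_comm, one_mul, mul_one]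
  have hΩ : ⟪D.Ω, x' D.Ω⟫_ℂ = 0 := by
    have h1 : D.τ x' = 0 := by
      rw [hx', τ_sub, τ_smul]
      have : D.τ 1 = 1 := by
        show ⟪D.Ω, D.Ω⟫_ℂ = 1
        rw [inner_self_eq_norm_sq_to_K, hD.norm_one]
        norm_num
      rw [this, ← hc]
      ring
    exact h1
  -- orthogonality to the levels of the tower
  have horth : ∀ j, ∀ y ∈ D.sub u j, ⟪x' D.Ω, y D.Ω⟫_ℂ = 0 := by
    intro j
    induction j with
    | zero =>
      intro y hy
      obtain ⟨l, rfl⟩ := StarSubalgebra.mem_bot.1 hy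
      rw [Algebra.algebraMap_eq_smul_one]
      show ⟪x' D.Ω, l • D.Ω⟫_ℂ = 0
      rw [inner_smul_right, ← inner_conj_symm, hΩ, map_zero, mul_zero]
    | succ j ih =>
      intro y hy
      obtain ⟨y₀, hy₀, hyy⟩ := hD.expect_sub u hu j hy
      have h1 : ⟪x' D.Ω, (y - y₀) D.Ω⟫_ℂ = 0 := by
        refine hD.orth_diff (hD.ladder_sub hu) hx'R hx'e (sub_mem hy (D.sub_le_succ u j hy₀)) fun z hz => ?_
        rw [mul_sub, τ_sub, hD.tau_expect (hD.ladder_sub hu) hy hy₀ hyy hz, sub_self]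
      have h2 : (y - y₀) D.Ω = y D.Ω - y₀ D.Ω := rfl
      rw [h2, inner_sub_right, ih y₀ hy₀, sub_zero] at h1
      exact h1
  -- the closed subspace generated by the tower
  let K₀ : Submodule ℂ H :=
    { carrier := {v | ∃ j, ∃ y ∈ D.sub u j, v = y D.Ω}
      add_mem' := by
        rintro _ _ ⟨i, x, hx, rfl⟩ ⟨j, y, hy, rfl⟩
        exact ⟨max i j, x + y, add_mem (D.sub_mono u (le_max_left _ _) hx)
          (D.sub_mono u (le_max_right _ _) hy), rfl⟩
      zero_mem' := ⟨0, 0, zero_mem _, rfl⟩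
      smul_mem' := by
        rintro c _ ⟨j, x, hx, rfl⟩
        exact ⟨j, c • x, SMulMemClass.smul_mem c hx, rfl⟩ }
  let K : Submodule ℂ H := K₀.topologicalClosure
  have hinv : ∀ k, ∀ s ∈ D.sub u k, ∀ v ∈ K, s v ∈ K := by
    intro k s hs v hv
    have h1 : K₀ ≤ K.comap (s : H →ₗ[ℂ] H) := by
      rintro _ ⟨j, y, hy, rfl⟩
      refine Submodule.le_topologicalClosure _ ⟨max k j, s * y, mul_mem
        (D.sub_mono u (le_max_left _ _) hs) (D.sub_mono u (le_max_right _ _) hy), rfl⟩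
    have h2 : IsClosed ((K.comap (s : H →ₗ[ℂ] H) : Submodule ℂ H) : Set H) :=
      (Submodule.isClosed_topologicalClosure K₀).preimage s.continuous
    exact Submodule.topologicalClosure_minimal _ h1 h2 hv
  have hcomm : ∀ k, ∀ s ∈ D.sub u k, s * K.starProjection = K.starProjection * s := by
    intro k s hs
    ext v
    show s (K.starProjection v) = K.starProjection (s v)
    symm
    refine Submodule.eq_starProjection_of_mem_orthogonal
      (hinv k s hs _ (Submodule.starProjection_apply_mem K v)) ?_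
    rw [Submodule.mem_orthogonal]
    intro w hw
    have h1 : s v - s (K.starProjection v) = s (v - K.starProjection v) := (map_sub s _ _).symm
    rw [h1]
    have h2 : ⟪w, s (v - K.starProjection v)⟫_ℂ =
        ⟪(star s) w, v - K.starProjection v⟫_ℂ := by
      rw [ContinuousLinearMap.star_eq_adjoint, ContinuousLinearMap.adjoint_inner_left]
    rw [h2]
    exact (Submodule.mem_orthogonal _ _).1 (Submodule.sub_starProjection_mem_orthogonal v) _
      (hinv k _ (star_mem hs) w hw)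
  have hcx : K.starProjection * x' = x' * K.starProjection := by
    refine gen_comm hx'u ?_
    intro s hs
    obtain ⟨k, hk⟩ : ∃ k, s ∈ D.sub u k := by
      rcases hs with hs | ⟨j, rfl⟩
      · exact ⟨1, StarAlgebra.subset_adjoin ℂ _ hs⟩
      · exact ⟨_, D.e_mem_sub u j⟩
    exact ⟨hcomm k s hk, hcomm k _ (star_mem hk)⟩
  have hΩK : D.Ω ∈ K := Submodule.le_topologicalClosure _ ⟨0, 1, one_mem _, rfl⟩
  have hxK : x' D.Ω ∈ K := by
    have h1 : K.starProjection (x' D.Ω) = x' (K.starProjection D.Ω) := by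
      have := congrArg (fun f : H →L[ℂ] H => f D.Ω) hcx
      exact this
    rw [Submodule.starProjection_eq_self_iff.2 hΩK] at h1
    rw [← h1]
    exact Submodule.starProjection_apply_mem K _
  have hx0 : x' D.Ω = 0 := by
    have h1 : ∀ v ∈ K, ⟪x' D.Ω, v⟫_ℂ = 0 := by
      intro v hv
      have h2 : K₀ ≤ (ℂ ∙ (x' D.Ω))ᗮ := by
        rintro _ ⟨j, y, hy, rfl⟩
        rw [Submodule.mem_orthogonal_singleton_iff_inner_right]
        exact horth j y hy
      have h3 := Submodule.topologicalClosure_minimal _ h2 (Submodule.isClosed_orthogonal _) hv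
      exact Submodule.mem_orthogonal_singleton_iff_inner_right.1 h3
    exact inner_self_eq_zero.1 (h1 _ hxK)
  have h0 := hD.eq_zero_of_apply hx'R hx0
  refine ⟨c, ?_⟩
  rw [hx', sub_eq_zero] at h0
  exact h0

theorem τ_single (i : Fin 4) : D.τ (D.ι (Matrix.single i i 1)) = 1 / 4 := by
  have h0 : ∀ i j : Fin 4, D.τ (D.ι (Matrix.single i i 1)) = D.τ (D.ι (Matrix.single j j 1)) := by
    intro i j
    have h1 : Matrix.single i i (1 : ℂ) = Matrix.single i j 1 * Matrix.single j i 1 := by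
      rw [Matrix.single_mul_single_same, mul_one]
    have h2 : Matrix.single j j (1 : ℂ) = Matrix.single j i 1 * Matrix.single i j 1 := by
      rw [Matrix.single_mul_single_same, mul_one]
    rw [h1, h2, map_mul, hD.tracial 1 _ (D.ι_mem _) _ (D.ι_mem _), ← map_mul]
  have h1 : D.τ (D.ι 1) = 1 := by
    rw [map_one]
    show ⟪D.Ω, D.Ω⟫_ℂ = 1
    rw [inner_self_eq_norm_sq_to_K, hD.norm_one]
    norm_num
  rw [hD.τ_ι, Fin.sum_univ_four, h0 0 i, h0 1 i, h0 2 i, h0 3 i] at h1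
  simp only [one_apply_eq, one_mul] at h1
  linear_combination h1 / 4

theorem inner_diag (f g : Fin 4 → ℂ) : ⟪(D.ι (diagonal f)) D.Ω, (D.ι (diagonal g)) D.Ω⟫_ℂ =
    (∑ i, star (f i) * g i) / 4 := by
  rw [inner_eq_τ, ← map_star, ← map_mul, hD.τ_ι, star_eq_conjTranspose,
    diagonal_conjTranspose, diagonal_mul_diagonal, Finset.sum_div]
  refine Finset.sum_congr rfl fun i _ => ?_
  rw [hD.τ_single, diagonal_apply_eq]
  simp only [Pi.star_apply]
  ring

/-- The component of a vector in `Δ_4 Ω`. -/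
theorem exists_diag (v : H) : ∃ d : Fin 4 → ℂ, ∀ f : Fin 4 → ℂ,
    ⟪v - (D.ι (diagonal d)) D.Ω, (D.ι (diagonal f)) D.Ω⟫_ℂ = 0 := by
  refine ⟨fun i => 4 * ⟪(D.ι (diagonal (Pi.single i 1))) D.Ω, v⟫_ℂ, ?_⟩
  intro f
  rw [inner_sub_left, sub_eq_zero, hD.inner_diag]
  have h2 : (diagonal f : Matrix (Fin 4) (Fin 4) ℂ) =
      ∑ i, f i • diagonal (Pi.single i 1) := by
    ext a b
    rw [Matrix.sum_apply]
    simp [diagonal_apply, Pi.single_apply]
  have h1 : (D.ι (diagonal f)) D.Ω = ∑ i, f i • (D.ι (diagonal (Pi.single i 1))) D.Ω := by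
    rw [h2, map_sum, _root_.sum_apply]
    refine Finset.sum_congr rfl fun i _ => ?_
    rw [map_smul]
    rfl
  rw [h1, inner_sum, Finset.sum_div]
  refine Finset.sum_congr rfl fun i _ => ?_
  rw [inner_smul_right, ← inner_conj_symm]
  simp only [star_mul', RCLike.star_def]
  have h3 : (starRingEnd ℂ) (4 : ℂ) = 4 := map_ofNat _ 4
  rw [h3]
  ring

/-- An element of `R` which commutes with all Jones projections belongs to `Δ_4`. -/
theorem diag_of_comm {x : H →L[ℂ] H} (hx : x ∈ D.R)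
    (hxe : ∀ j, x * D.e j = D.e j * x) : ∃ d : Fin 4 → ℂ, x = D.ι (diagonal d) := by
  obtain ⟨d, hd⟩ := hD.exists_diag (x D.Ω)
  refine ⟨d, ?_⟩
  set x₀ : H →L[ℂ] H := D.ι (diagonal d) with hx₀
  have hx₀m : x₀ ∈ D.alg 0 := StarAlgebra.subset_adjoin ℂ _ ⟨d, rfl⟩
  have hx'R : x - x₀ ∈ D.R := by
    have h1 : x₀ ∈ (D.R).toStarSubalgebra := hD.big_le_R (D.alg_le_big _ hx₀m)
    have h2 : x ∈ (D.R).toStarSubalgebra := hx
    exact sub_mem h2 h1
  have hx'e : ∀ j, (x - x₀) * D.e j = D.e j * (x - x₀) := by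
    intro j
    rw [sub_mul, mul_sub, hxe, hD.comm j x₀ (D.alg_mono (Nat.zero_le j) hx₀m)]
  have horth : ∀ j, ∀ y ∈ D.alg j, ⟪(x - x₀) D.Ω, y D.Ω⟫_ℂ = 0 := by
    intro j
    induction j with
    | zero =>
      intro y hy
      obtain ⟨f, rfl⟩ := alg_zero hy
      exact hd f
    | succ j ih =>
      intro y hy
      obtain ⟨y₀, hy₀, hyy, -⟩ := hD.expect j y hy
      have h1 : ⟪(x - x₀) D.Ω, (y - y₀) D.Ω⟫_ℂ = 0 := by
        refine hD.orth_diff hD.ladder_alg hx'R hx'e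
          (sub_mem hy (D.alg_le_succ j hy₀)) fun z hz => ?_
        rw [mul_sub, τ_sub, hD.tau_expect hD.ladder_alg hy hy₀ hyy hz, sub_self]
      have h2 : (y - y₀) D.Ω = y D.Ω - y₀ D.Ω := rfl
      rw [h2, inner_sub_right, ih y₀ hy₀, sub_zero] at h1
      exact h1
  have h0 : (x - x₀) D.Ω = 0 := hD.cyclic _ horth
  have h1 := hD.eq_zero_of_apply hx'R h0
  rwa [sub_eq_zero] at h1

end IsTower

end Data

end Pool.Agent.H258.Spin
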