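import Pool.Agent.H258.Spin.Core

/-!
# Existence of the tower of basic constructions of `Δ_4 ⊂ M_4`

A model on `ℓ²(G)`, `G = ⊕ ℤ/4`, given by a projective regular representation.
-/

namespace Pool.Agent.H258.Spin.Model

open scoped InnerProductSpace ComplexOrder
open Matrix

/-- The index group. -/
abbrev G : Type := ℕ →₀ ZMod 4

/-- The bilinear form `B(g, h) = ∑ g_i h_{i + 1}`. -/
noncomputable def B (g h : G) : ZMod 4 := g.sum fun i a => a * h (i + 1)

theorem B_add_left (g g' h : G) : B (g + g') h = B g h + B g' h := by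
  unfold B
  exact Finsupp.sum_add_index' (fun _ => by simp) (fun _ _ _ => by ring)

theorem B_add_right (g h h' : G) : B g (h + h') = B g h + B g h' := by
  unfold B
  simp [Finsupp.sum, mul_add, Finset.sum_add_distrib]

theorem B_zero_left (h : G) : B 0 h = 0 := by simp [B]

theorem B_zero_right (g : G) : B g 0 = 0 := by simp [B]

theorem B_neg_left (g h : G) : B (-g) h = - B g h := by
  have h1 := B_add_left (-g) g h
  rw [neg_add_cancel, B_zero_left] at h1
  linear_combination -h1

theorem B_neg_right (g h : G) : B g (-h) = - B g h := by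
  have h1 := B_add_right g (-h) h
  rw [neg_add_cancel, B_zero_right] at h1
  linear_combination -h1

theorem B_single_left (i : ℕ) (a : ZMod 4) (h : G) :
    B (Finsupp.single i a) h = a * h (i + 1) := by
  unfold B
  exact Finsupp.sum_single_index (by simp)

theorem B_single_succ (g : G) (i : ℕ) (a : ZMod 4) :
    B g (Finsupp.single (i + 1) a) = g i * a := by
  unfold B
  rw [Finsupp.sum]
  by_cases hi : i ∈ g.support
  · rw [Finset.sum_eq_single i]
    · simp
    · intro k _ hk
      rw [Finsupp.single_eq_of_ne, mul_zero]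
      omega
    · intro h
      exact absurd hi h
  · rw [Finsupp.notMem_support_iff.1 hi, zero_mul]
    refine Finset.sum_eq_zero fun k hk => ?_
    rw [Finsupp.single_eq_of_ne, mul_zero]
    rintro h
    have : k = i := by omega
    subst this
    exact hi hk

theorem B_single_zero (g : G) (a : ZMod 4) : B g (Finsupp.single 0 a) = 0 := by
  unfold B
  rw [Finsupp.sum]
  refine Finset.sum_eq_zero fun k _ => ?_
  rw [Finsupp.single_eq_of_ne (by omega), mul_zero]

/-- The standard character. -/
noncomputable def ψ : AddChar (ZMod 4) ℂ := ZMod.stdAddChar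

theorem ψ_norm (a : ZMod 4) : ‖ψ a‖ = 1 := AddChar.norm_apply ψ a

theorem ψ_conj (a : ZMod 4) : star (ψ a) = ψ (-a) := by
  rw [AddChar.map_neg_eq_conj]
  rfl

theorem ψ_neg_mul (a : ZMod 4) : ψ (-a) * ψ a = 1 := by
  rw [← AddChar.map_add_eq_mul, neg_add_cancel, AddChar.map_zero_eq_one]

theorem ψ_sum (a : ZMod 4) : ∑ x : ZMod 4, ψ (x * a) = if a = 0 then 4 else 0 := by
  have h := AddChar.sum_mulShift (ψ := ψ) a (ZMod.isPrimitive_stdAddChar 4)
  rw [h]
  split_ifs <;> simp

/-- The cocycle. -/
noncomputable def c (g h : G) : ℂ := ψ (B g h)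

theorem c_add_left (g g' h : G) : c (g + g') h = c g h * c g' h := by
  rw [c, B_add_left, AddChar.map_add_eq_mul]
  rfl

theorem c_add_right (g h h' : G) : c g (h + h') = c g h * c g h' := by
  rw [c, B_add_right, AddChar.map_add_eq_mul]
  rfl

theorem c_zero_left (h : G) : c 0 h = 1 := by
  rw [c, B_zero_left, AddChar.map_zero_eq_one]

theorem c_zero_right (g : G) : c g 0 = 1 := by
  rw [c, B_zero_right, AddChar.map_zero_eq_one]

theorem c_norm (g h : G) : ‖c g h‖ = 1 := ψ_norm _

variable {H : Type*} [NormedAddCommGroup H] [InnerProductSpace ℂ H] [CompleteSpace H]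
  (b : HilbertBasis G ℂ H)

theorem exists_L (g : G) : ∃ L : H →L[ℂ] H, (∀ h, L (b h) = c g h • b (g + h)) ∧
    ∀ x y, ⟪L x, L y⟫_ℂ = ⟪x, y⟫_ℂ := by
  let v : G → H := fun h => c g h • b (g + h)
  have hv : Orthonormal ℂ v := by
    constructor
    · intro h
      show ‖c g h • b (g + h)‖ = 1
      rw [norm_smul, c_norm, b.orthonormal.1, one_mul]
    · intro h h' hh
      show ⟪c g h • b (g + h), c g h' • b (g + h')⟫_ℂ = 0
      rw [inner_smul_left, inner_smul_right, b.orthonormal.2, mul_zero, mul_zero]
      intro h1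
      exact hh (add_left_cancel h1)
  have hsp : ⊤ ≤ (Submodule.span ℂ (Set.range v)).topologicalClosure := by
    rw [← b.dense_span]
    refine Submodule.topologicalClosure_mono (Submodule.span_le.2 ?_)
    rintro _ ⟨h, rfl⟩
    have h1 : b h = (c g (h - g))⁻¹ • v (h - g) := by
      show b h = (c g (h - g))⁻¹ • (c g (h - g) • b (g + (h - g)))
      rw [smul_smul, inv_mul_cancel₀, one_smul, add_sub_cancel]
      intro h2
      have := c_norm g (h - g)
      rw [h2, norm_zero] at this
      exact zero_ne_one this
    rw [h1]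
    exact Submodule.smul_mem _ _ (Submodule.subset_span ⟨_, rfl⟩)
  let b' : HilbertBasis G ℂ H := HilbertBasis.mk hv hsp
  let U : H ≃ₗᵢ[ℂ] H := b.repr.trans b'.repr.symm
  refine ⟨(U.toContinuousLinearEquiv : H →L[ℂ] H), ?_, ?_⟩
  · intro h
    show b'.repr.symm (b.repr (b h)) = _
    rw [b.repr_self, HilbertBasis.repr_symm_single]
    show (HilbertBasis.mk hv hsp) h = _
    rw [HilbertBasis.coe_mk]
  · intro x y
    exact U.inner_map_map x y

/-- The projective regular representation. -/
noncomputable def L (g : G) : H →L[ℂ] H := (exists_L b g).choose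

theorem L_basis (g h : G) : L b g (b h) = c g h • b (g + h) := (exists_L b g).choose_spec.1 h

theorem L_inner (g : G) (x y : H) : ⟪L b g x, L b g y⟫_ℂ = ⟪x, y⟫_ℂ :=
  (exists_L b g).choose_spec.2 x y

omit [CompleteSpace H] in
theorem ext_basis {S T : H →L[ℂ] H} (h : ∀ g, S (b g) = T (b g)) : S = T := by
  refine ContinuousLinearMap.ext_on (s := Set.range b) ?_ ?_
  · rw [Submodule.dense_iff_topologicalClosure_eq_top]
    exact b.dense_span
  · rintro _ ⟨g, rfl⟩
    exact h g

theorem L_zero : L b 0 = 1 := by
  refine ext_basis b fun g => ?_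
  rw [L_basis, c_zero_left, zero_add, one_smul]
  rfl

theorem L_mul (g h : G) : L b g * L b h = c g h • L b (g + h) := by
  refine ext_basis b fun k => ?_
  show L b g (L b h (b k)) = c g h • L b (g + h) (b k)
  rw [L_basis, L_basis, map_smul, L_basis, c_add_right, c_add_left, smul_smul, smul_smul, add_assoc]
  congr 1
  ring

theorem L_star (g : G) : star (L b g) = c g g • L b (-g) := by
  have h1 : star (L b g) * L b g = 1 := by
    refine ContinuousLinearMap.ext fun x => ?_
    refine ext_inner_right ℂ fun y => ?_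
    show ⟪(star (L b g)) (L b g x), y⟫_ℂ = ⟪x, y⟫_ℂ
    rw [ContinuousLinearMap.star_eq_adjoint, ContinuousLinearMap.adjoint_inner_left, L_inner]
  have h2 : L b g * (c g g • L b (-g)) = 1 := by
    rw [mul_smul_comm, L_mul, smul_smul, ← c_add_right, add_neg_cancel, c_zero_right, one_smul,
      L_zero]
  calc star (L b g) = star (L b g) * (L b g * (c g g • L b (-g))) := by rw [h2, mul_one]
    _ = _ := by rw [← mul_assoc, h1, one_mul]

/-- The span of the operators `L g`, `g` in a subgroup. -/
noncomputable def W (S : AddSubgroup G) : StarSubalgebra ℂ (H →L[ℂ] H) where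
  carrier := (Submodule.span ℂ (L b '' (S : Set G)) : Set (H →L[ℂ] H))
  add_mem' := fun hx hy => Submodule.add_mem _ hx hy
  algebraMap_mem' := fun r => by
    rw [Algebra.algebraMap_eq_smul_one, ← L_zero b]
    exact Submodule.smul_mem _ _ (Submodule.subset_span ⟨0, S.zero_mem, rfl⟩)
  mul_mem' := by
    intro x y hx hy
    rw [SetLike.mem_coe] at hx hy ⊢
    induction hx using Submodule.span_induction with
    | zero => rw [zero_mul]; exact Submodule.zero_mem _
    | add x x' _ _ h h' => rw [add_mul]; exact Submodule.add_mem _ h h'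
    | smul r x _ h => rw [smul_mul_assoc]; exact Submodule.smul_mem _ _ h
    | mem x hx =>
      obtain ⟨g, hg, rfl⟩ := hx
      induction hy using Submodule.span_induction with
      | zero => rw [mul_zero]; exact Submodule.zero_mem _
      | add x x' _ _ h h' => rw [mul_add]; exact Submodule.add_mem _ h h'
      | smul r x _ h => rw [mul_smul_comm]; exact Submodule.smul_mem _ _ h
      | mem y hy =>
        obtain ⟨h, hh, rfl⟩ := hy
        rw [L_mul]
        exact Submodule.smul_mem _ _ (Submodule.subset_span ⟨g + h, S.add_mem hg hh, rfl⟩)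
  star_mem' := by
    intro x hx
    rw [SetLike.mem_coe] at hx ⊢
    induction hx using Submodule.span_induction with
    | zero => rw [star_zero]; exact Submodule.zero_mem _
    | add x x' _ _ h h' => rw [star_add]; exact Submodule.add_mem _ h h'
    | smul r x _ h => rw [star_smul]; exact Submodule.smul_mem _ _ h
    | mem x hx =>
      obtain ⟨g, hg, rfl⟩ := hx
      rw [L_star]
      exact Submodule.smul_mem _ _ (Submodule.subset_span ⟨-g, S.neg_mem hg, rfl⟩)

theorem L_mem {S : AddSubgroup G} {g : G} (hg : g ∈ S) : L b g ∈ W b S :=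
  Submodule.subset_span ⟨g, hg, rfl⟩

/-- Induction on the elements of `W S`. -/
theorem W_induction {S : AddSubgroup G} {p : (H →L[ℂ] H) → Prop} (h0 : p 0)
    (hadd : ∀ x y, p x → p y → p (x + y)) (hsmul : ∀ (r : ℂ) x, p x → p (r • x))
    (hL : ∀ g ∈ S, p (L b g)) {x : H →L[ℂ] H} (hx : x ∈ W b S) : p x := by
  have hx' : x ∈ Submodule.span ℂ (L b '' (S : Set G)) := hx
  clear hx
  induction hx' using Submodule.span_induction with
  | zero => exact h0
  | add x x' _ _ h h' => exact hadd _ _ h h'
  | smul r x _ h => exact hsmul _ _ h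
  | mem x hx =>
    obtain ⟨g, hg, rfl⟩ := hx
    exact hL g hg

theorem W_le {S : AddSubgroup G} {A : StarSubalgebra ℂ (H →L[ℂ] H)}
    (h : ∀ g ∈ S, L b g ∈ A) : W b S ≤ A := by
  intro x hx
  exact W_induction b (zero_mem _) (fun x y hx hy => add_mem hx hy)
    (fun r x hx => SMulMemClass.smul_mem r hx) h hx

theorem W_mono {S T : AddSubgroup G} (h : S ≤ T) : W b S ≤ W b T :=
  W_le b fun _ hg => L_mem b (h hg)

/-- The matrix units. -/
noncomputable def E (i j : ZMod 4) : H →L[ℂ] H :=
  (1 / 4 : ℂ) • ∑ a : ZMod 4, ψ (-(a * j)) • L b (Finsupp.single 1 (i - j) + Finsupp.single 0 a)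

theorem B_unit (x y x' y' : ZMod 4) :
    B (Finsupp.single 1 x + Finsupp.single 0 y) (Finsupp.single 1 x' + Finsupp.single 0 y') =
      y * x' := by
  rw [B_add_right, B_single_zero, add_zero, B_add_left, B_single_left, B_single_left]
  simp

theorem E_mul (i j k l : ZMod 4) : E b i j * E b k l = if j = k then E b i l else 0 := by
  have h1 : E b i j * E b k l = (1 / 16 : ℂ) • ∑ s : ZMod 4, ∑ a : ZMod 4,
      (ψ (-(s * l)) * ψ (a * (k - j))) •
        L b (Finsupp.single 1 (i - j + (k - l)) + Finsupp.single 0 s) := by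
    unfold E
    rw [smul_mul_smul_comm, Finset.sum_mul_sum]
    congr 1
    · norm_num
    rw [Finset.sum_comm]
    have h2 : ∀ a : ZMod 4, ∑ a' : ZMod 4,
        ψ (-(a * j)) • L b (Finsupp.single 1 (i - j) + Finsupp.single 0 a) *
          ψ (-(a' * l)) • L b (Finsupp.single 1 (k - l) + Finsupp.single 0 a') =
        ∑ s : ZMod 4, (ψ (-(s * l)) * ψ (a * (k - j))) •
        L b (Finsupp.single 1 (i - j + (k - l)) + Finsupp.single 0 s) := by
      intro a
      refine Fintype.sum_equiv (Equiv.addLeft a) _ _ fun a' => ?_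
      rw [smul_mul_smul_comm, L_mul, smul_smul, c, B_unit]
      rw [← AddChar.map_add_eq_mul, ← AddChar.map_add_eq_mul, ← AddChar.map_add_eq_mul]
      congr 1
      · congr 1
        simp only [Equiv.coe_addLeft]
        ring
      · congr 1
        simp only [Equiv.coe_addLeft, Finsupp.single_add]
        abel
    rw [Finset.sum_comm]
    rw [Finset.sum_congr rfl fun a _ => h2 a]
    rw [Finset.sum_comm]
  rw [h1]
  have h3 : ∀ s : ZMod 4, ∑ a : ZMod 4, (ψ (-(s * l)) * ψ (a * (k - j))) •
        L b (Finsupp.single 1 (i - j + (k - l)) + Finsupp.single 0 s) =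
      ((if j = k then 4 else 0 : ℂ) * ψ (-(s * l))) •
        L b (Finsupp.single 1 (i - j + (k - l)) + Finsupp.single 0 s) := by
    intro s
    rw [← Finset.sum_smul, ← Finset.mul_sum, ψ_sum, mul_comm]
    congr 2
    simp only [sub_eq_zero, eq_comm]
  rw [Finset.sum_congr rfl fun s _ => h3 s]
  split_ifs with hjk
  · subst hjk
    unfold E
    rw [Finset.smul_sum, Finset.smul_sum]
    refine Finset.sum_congr rfl fun s _ => ?_
    rw [smul_smul, smul_smul, sub_add_sub_cancel]
    congr 1
    ring
  · simp

theorem E_star (i j : ZMod 4) : star (E b i j) = E b j i := by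
  unfold E
  rw [star_smul, star_sum]
  congr 1
  · simp
  refine Fintype.sum_equiv (Equiv.neg _) _ _ fun a => ?_
  rw [star_smul, L_star, smul_smul, ψ_conj, c, B_unit, ← AddChar.map_add_eq_mul]
  congr 1
  · congr 1
    simp only [Equiv.neg_apply]
    ring
  · congr 1
    simp only [Equiv.neg_apply, Finsupp.single_neg, Finsupp.single_sub]
    abel

theorem E_sum : ∑ i : ZMod 4, E b i i = 1 := by
  unfold E
  rw [← Finset.smul_sum, Finset.sum_comm]
  have h1 : ∀ a : ZMod 4, ∑ i : ZMod 4,
      ψ (-(a * i)) • L b (Finsupp.single 1 (i - i) + Finsupp.single 0 a) =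
        (if a = 0 then 4 else 0 : ℂ) • L b (Finsupp.single 0 a) := by
    intro a
    have h2 : ∀ i : ZMod 4, ψ (-(a * i)) • L b (Finsupp.single 1 (i - i) + Finsupp.single 0 a) =
        ψ (i * (-a)) • L b (Finsupp.single 0 a) := by
      intro i
      rw [sub_self, Finsupp.single_zero, zero_add]
      congr 2
      ring
    rw [Finset.sum_congr rfl fun i _ => h2 i, ← Finset.sum_smul, ψ_sum]
    congr 2
    simp
  rw [Finset.sum_congr rfl fun a _ => h1 a]
  rw [Finset.sum_eq_single 0]
  · rw [if_pos rfl, Finsupp.single_zero, L_zero, smul_smul]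
    norm_num
  · intro a _ ha
    rw [if_neg ha, zero_smul]
  · intro h
    exact absurd (Finset.mem_univ _) h

/-- The representation of `M_4`. -/
noncomputable def ι : Matrix (ZMod 4) (ZMod 4) ℂ →⋆ₐ[ℂ] (H →L[ℂ] H) where
  toFun m := ∑ i, ∑ j, m i j • E b i j
  map_one' := by
    have h1 : ∀ i : ZMod 4, ∑ j, (1 : Matrix (ZMod 4) (ZMod 4) ℂ) i j • E b i j = E b i i := by
      intro i
      rw [Finset.sum_eq_single i]
      · rw [Matrix.one_apply_eq, one_smul]
      · intro j _ hj
        rw [Matrix.one_apply_ne hj.symm, zero_smul]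
      · intro h
        exact absurd (Finset.mem_univ _) h
    rw [Finset.sum_congr rfl fun i _ => h1 i, E_sum]
  map_mul' := by
    intro m m'
    rw [Finset.sum_mul]
    refine Finset.sum_congr rfl fun i _ => ?_
    rw [Finset.sum_mul]
    have h1 : ∀ j : ZMod 4, m i j • E b i j * ∑ k, ∑ l, m' k l • E b k l =
        ∑ l, (m i j * m' j l) • E b i l := by
      intro j
      rw [Finset.mul_sum, Finset.sum_eq_single j]
      · rw [Finset.mul_sum]
        refine Finset.sum_congr rfl fun l _ => ?_
        rw [smul_mul_smul_comm, E_mul, if_pos rfl]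
      · intro k _ hk
        rw [Finset.mul_sum]
        refine Finset.sum_eq_zero fun l _ => ?_
        rw [smul_mul_smul_comm, E_mul, if_neg hk.symm, smul_zero]
      · intro h
        exact absurd (Finset.mem_univ _) h
    rw [Finset.sum_congr rfl fun j _ => h1 j, Finset.sum_comm]
    refine Finset.sum_congr rfl fun l _ => ?_
    rw [Matrix.mul_apply, Finset.sum_smul]
  map_zero' := by simp
  map_add' := by
    intro m m'
    simp only [Matrix.add_apply, add_smul, Finset.sum_add_distrib]
  commutes' := by
    intro r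
    have h1 : ∀ i : ZMod 4, ∑ j, (algebraMap ℂ (Matrix (ZMod 4) (ZMod 4) ℂ) r) i j • E b i j =
        r • E b i i := by
      intro i
      rw [Finset.sum_eq_single i]
      · rw [Matrix.algebraMap_matrix_apply, if_pos rfl]
        rfl
      · intro j _ hj
        rw [Matrix.algebraMap_matrix_apply, if_neg hj.symm, zero_smul]
      · intro h
        exact absurd (Finset.mem_univ _) h
    show ∑ i, ∑ j, (algebraMap ℂ (Matrix (ZMod 4) (ZMod 4) ℂ) r) i j • E b i j = _
    rw [Finset.sum_congr rfl fun i _ => h1 i, ← Finset.smul_sum, E_sum,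
      Algebra.algebraMap_eq_smul_one]
  map_star' := by
    intro m
    rw [star_sum, Finset.sum_comm]
    refine Finset.sum_congr rfl fun i _ => ?_
    rw [star_sum]
    refine Finset.sum_congr rfl fun j _ => ?_
    rw [star_smul, E_star, Matrix.star_apply]

/-- The model. -/
noncomputable def model : Data 4 H where
  ι := ι b
  e j := (1 / 4 : ℂ) • ∑ a : ZMod 4, L b (Finsupp.single (j + 2) a)
  Ω := b 0

/-- The subgroups of the elements supported in `[0, j]`. -/
def S (j : ℕ) : AddSubgroup G where
  carrier := {g | ∀ i, j < i → g i = 0}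
  zero_mem' := fun _ _ => rfl
  add_mem' := fun {g h} hg hh i hi => by
    rw [Finsupp.add_apply, hg i hi, hh i hi, add_zero]
  neg_mem' := fun {g} hg i hi => by
    rw [Finsupp.neg_apply, hg i hi, neg_zero]

theorem τ_L (g : G) : (model b).τ (L b g) = if g = 0 then 1 else 0 := by
  show ⟪b 0, L b g (b 0)⟫_ℂ = _
  rw [L_basis, add_zero, c_zero_right, one_smul]
  split_ifs with h
  · subst h
    rw [inner_self_eq_norm_sq_to_K, b.orthonormal.1]
    norm_num
  · exact b.orthonormal.2 (Ne.symm h)

theorem W_top {S : AddSubgroup G} : W b S ≤ W b ⊤ := W_mono b le_top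

theorem τ_add' (x y : H →L[ℂ] H) : (model b).τ (x + y) = (model b).τ x + (model b).τ y :=
  (model b).τ_add x y

theorem τ_tracial {x y : H →L[ℂ] H} (hx : x ∈ W b ⊤) (hy : y ∈ W b ⊤) :
    (model b).τ (x * y) = (model b).τ (y * x) := by
  refine W_induction b (p := fun x => (model b).τ (x * y) = (model b).τ (y * x)) ?_ ?_ ?_ ?_ hx
  · rw [zero_mul, mul_zero]
  · intro x x' h h'
    rw [add_mul, mul_add, Data.τ_add, Data.τ_add, h, h']
  · intro r x h
    rw [smul_mul_assoc, mul_smul_comm, Data.τ_smul, Data.τ_smul, h]
  · intro g _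
    refine W_induction b (p := fun y => (model b).τ (L b g * y) = (model b).τ (y * L b g))
      ?_ ?_ ?_ ?_ hy
    · rw [zero_mul, mul_zero]
    · intro x x' h h'
      rw [add_mul, mul_add, Data.τ_add, Data.τ_add, h, h']
    · intro r x h
      rw [smul_mul_assoc, mul_smul_comm, Data.τ_smul, Data.τ_smul, h]
    · intro h _
      rw [L_mul, L_mul, Data.τ_smul, Data.τ_smul, τ_L, τ_L, add_comm h g]
      split_ifs with h0
      · have h1 : h = -g := by
          rw [eq_neg_iff_add_eq_zero, add_comm]
          exact h0
        subst h1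
        rw [c, c, B_neg_left, B_neg_right]
      · rw [mul_zero, mul_zero]

/-- The unitaries generating the spectral projections. -/
noncomputable def P (j : ℕ) (a : ZMod 4) : H →L[ℂ] H := L b (Finsupp.single (j + 2) a)

theorem e_eq (j : ℕ) : (model b).e j = (1 / 4 : ℂ) • ∑ a : ZMod 4, P b j a := rfl

theorem P_mul (j : ℕ) (a a' : ZMod 4) : P b j a * P b j a' = P b j (a + a') := by
  unfold P
  rw [L_mul, c, B_single_left, Finsupp.single_eq_of_ne (by omega), mul_zero,
    AddChar.map_zero_eq_one, one_smul, Finsupp.single_add]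

theorem P_star (j : ℕ) (a : ZMod 4) : star (P b j a) = P b j (-a) := by
  unfold P
  rw [L_star, c, B_single_left, Finsupp.single_eq_of_ne (by omega), mul_zero,
    AddChar.map_zero_eq_one, one_smul, Finsupp.single_neg]

theorem P_comm (j : ℕ) (a : ZMod 4) (g : G) :
    P b j a * L b g = ψ (a * (g (j + 3) - g (j + 1))) • (L b g * P b j a) := by
  unfold P
  rw [L_mul, L_mul, smul_smul, c, c, B_single_left, B_single_succ, ← AddChar.map_add_eq_mul,
    add_comm g]
  congr 2
  ring

theorem P_e (j : ℕ) (a : ZMod 4) : P b j a * (model b).e j = (model b).e j := by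
  rw [e_eq, mul_smul_comm, Finset.mul_sum]
  congr 1
  refine Fintype.sum_equiv (Equiv.addLeft a) _ _ fun a' => ?_
  rw [P_mul]
  rfl

theorem e_L_e {j : ℕ} {g : G} (hg : g ∈ S (j + 1)) :
    (model b).e j * L b g * (model b).e j =
      (if g (j + 1) = 0 then 1 else 0 : ℂ) • (L b g * (model b).e j) := by
  conv_lhs => rw [e_eq b j, smul_mul_assoc, Finset.sum_mul, ← e_eq b j]
  have h1 : ∀ a : ZMod 4, P b j a * L b g * (model b).e j =
      ψ (a * (-g (j + 1))) • (L b g * (model b).e j) := by
    intro a
    rw [P_comm, hg (j + 3) (by omega), zero_sub, smul_mul_assoc, mul_assoc, P_e]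
  rw [smul_mul_assoc, Finset.sum_mul, Finset.sum_congr rfl fun a _ => h1 a, ← Finset.sum_smul,
    ψ_sum, smul_smul]
  congr 1
  simp only [neg_eq_zero]
  split_ifs
  · norm_num
  · norm_num

theorem e_idem (j : ℕ) : (model b).e j * (model b).e j = (model b).e j := by
  have h := e_L_e b (j := j) (g := 0) (S (j + 1)).zero_mem
  rw [L_zero, mul_one, one_mul] at h
  rw [h, Finsupp.zero_apply, if_pos rfl, one_smul]

theorem e_star (j : ℕ) : star ((model b).e j) = (model b).e j := by
  rw [e_eq, star_smul, star_sum]
  congr 1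
  · simp
  · refine Fintype.sum_equiv (Equiv.neg _) _ _ fun a => ?_
    rw [P_star]
    rfl

theorem e_comm {j : ℕ} {x : H →L[ℂ] H} (hx : x ∈ W b (S j)) :
    (model b).e j * x = x * (model b).e j := by
  refine W_induction b (p := fun x => (model b).e j * x = x * (model b).e j) ?_ ?_ ?_ ?_ hx
  · rw [zero_mul, mul_zero]
  · intro x x' h h'
    rw [add_mul, mul_add, h, h']
  · intro r x h
    rw [smul_mul_assoc, mul_smul_comm, h]
  · intro g hg
    rw [e_eq, smul_mul_assoc, mul_smul_comm, Finset.sum_mul, Finset.mul_sum]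
    congr 1
    refine Finset.sum_congr rfl fun a _ => ?_
    rw [P_comm, hg (j + 3) (by omega), hg (j + 1) (by omega), sub_zero, mul_zero,
      AddChar.map_zero_eq_one, one_smul]

theorem e_markov {j : ℕ} {x : H →L[ℂ] H} (hx : x ∈ W b (S (j + 1))) :
    (model b).τ (x * (model b).e j) = (model b).τ x / 4 := by
  refine W_induction b (p := fun x => (model b).τ (x * (model b).e j) = (model b).τ x / 4)
    ?_ ?_ ?_ ?_ hx
  · simp [Data.τ]
  · intro x x' h h'
    rw [add_mul, Data.τ_add, Data.τ_add, h, h', add_div]
  · intro r x h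
    rw [smul_mul_assoc, Data.τ_smul, Data.τ_smul, h, mul_div_assoc]
  · intro g hg
    have h2 : ∀ (s : Finset (ZMod 4)) (f : ZMod 4 → (H →L[ℂ] H)),
        (model b).τ (∑ i ∈ s, f i) = ∑ i ∈ s, (model b).τ (f i) := by
      intro s f
      induction s using Finset.induction_on with
      | empty => simp [Data.τ]
      | insert a s ha ih => rw [Finset.sum_insert ha, Finset.sum_insert ha, Data.τ_add, ih]
    rw [e_eq, mul_smul_comm, Finset.mul_sum, Data.τ_smul, h2, Finset.sum_eq_single 0]
    · rw [P, Finsupp.single_zero, L_zero, mul_one]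
      ring
    · intro a _ ha
      rw [P, L_mul, Data.τ_smul, τ_L, if_neg, mul_zero]
      intro h0
      have h1 := DFunLike.congr_fun h0 (j + 2)
      rw [Finsupp.add_apply, hg (j + 2) (by omega), Finsupp.single_eq_same, zero_add] at h1
      exact ha h1
    · intro h
      exact absurd (Finset.mem_univ _) h

theorem e_expect {j : ℕ} {x : H →L[ℂ] H} (hx : x ∈ W b (S (j + 1))) :
    ∃ y ∈ W b (S j), (model b).e j * x * (model b).e j = y * (model b).e j ∧
      ∀ z ∈ W b (S j), (model b).τ (y * z) = (model b).τ (x * z) := by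
  refine W_induction b (p := fun x => ∃ y ∈ W b (S j),
    (model b).e j * x * (model b).e j = y * (model b).e j ∧
      ∀ z ∈ W b (S j), (model b).τ (y * z) = (model b).τ (x * z)) ?_ ?_ ?_ ?_ hx
  · exact ⟨0, zero_mem _, by simp, fun z _ => rfl⟩
  · rintro x x' ⟨y, hy, h1, h2⟩ ⟨y', hy', h1', h2'⟩
    refine ⟨y + y', add_mem hy hy', ?_, fun z hz => ?_⟩
    · rw [mul_add, add_mul, add_mul, h1, h1']
    · rw [add_mul, add_mul, Data.τ_add, Data.τ_add, h2 z hz, h2' z hz]
  · rintro r x ⟨y, hy, h1, h2⟩
    refine ⟨r • y, SMulMemClass.smul_mem r hy, ?_, fun z hz => ?_⟩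
    · rw [mul_smul_comm, smul_mul_assoc, smul_mul_assoc, h1]
    · rw [smul_mul_assoc, smul_mul_assoc, Data.τ_smul, Data.τ_smul, h2 z hz]
  · intro g hg
    by_cases h0 : g (j + 1) = 0
    · have hgj : g ∈ S j := by
        intro i hi
        rcases Nat.lt_or_ge (j + 1) i with h | h
        · exact hg i h
        · have : i = j + 1 := by omega
          rw [this, h0]
      refine ⟨L b g, L_mem b hgj, ?_, fun z _ => rfl⟩
      rw [e_L_e b hg, if_pos h0, one_smul]
    · refine ⟨0, zero_mem _, ?_, fun z hz => ?_⟩
      · rw [e_L_e b hg, if_neg h0, zero_smul, zero_mul]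
      · rw [zero_mul]
        refine W_induction b (p := fun z => (model b).τ 0 = (model b).τ (L b g * z))
          ?_ ?_ ?_ ?_ hz
        · rw [mul_zero]
        · intro x x' h h'
          rw [mul_add, Data.τ_add, ← h, ← h']
          simp [Data.τ]
        · intro r x h
          rw [mul_smul_comm, Data.τ_smul, ← h]
          simp [Data.τ]
        · intro k hk
          rw [L_mul, Data.τ_smul, τ_L, if_neg]
          · simp [Data.τ]
          · intro h1
            have h2 := DFunLike.congr_fun h1 (j + 1)
            rw [Finsupp.add_apply, hk (j + 1) (by omega), add_zero] at h2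
            exact h0 h2

theorem S_mono {j k : ℕ} (h : j ≤ k) : S j ≤ S k := fun _ hg i hi => hg i (by omega)

theorem single_mem {i j : ℕ} (h : i ≤ j) (a : ZMod 4) : Finsupp.single i a ∈ S j := by
  intro k hk
  rw [Finsupp.single_eq_of_ne]
  omega

/-- The recovery of the Weyl operators from the matrix units. -/
theorem L_eq (x y : ZMod 4) : L b (Finsupp.single 1 x + Finsupp.single 0 y) =
    ∑ j : ZMod 4, ψ (y * j) • E b (j + x) j := by
  have h1 : ∀ j : ZMod 4, ψ (y * j) • E b (j + x) j = (1 / 4 : ℂ) • ∑ a : ZMod 4,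
      ψ (j * (y - a)) • L b (Finsupp.single 1 x + Finsupp.single 0 a) := by
    intro j
    unfold E
    rw [smul_comm, Finset.smul_sum]
    congr 1
    refine Finset.sum_congr rfl fun a _ => ?_
    rw [smul_smul, ← AddChar.map_add_eq_mul, add_sub_cancel_left]
    congr 2
    ring
  rw [Finset.sum_congr rfl fun j _ => h1 j, ← Finset.smul_sum, Finset.sum_comm]
  rw [Finset.sum_eq_single y]
  · rw [← Finset.sum_smul, ψ_sum, if_pos (sub_self y), smul_smul]
    norm_num
  · intro a _ ha
    rw [← Finset.sum_smul, ψ_sum, if_neg, zero_smul]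
    exact sub_ne_zero.2 ha.symm
  · intro h
    exact absurd (Finset.mem_univ _) h

theorem ι_apply (m : Matrix (ZMod 4) (ZMod 4) ℂ) : ι b m = ∑ i, ∑ j, m i j • E b i j := rfl

theorem ι_diagonal (d : ZMod 4 → ℂ) : ι b (diagonal d) = ∑ i, d i • E b i i := by
  rw [ι_apply]
  refine Finset.sum_congr rfl fun i _ => ?_
  rw [Finset.sum_eq_single i]
  · rw [diagonal_apply_eq]
  · intro j _ hj
    rw [diagonal_apply_ne _ hj.symm, zero_smul]
  · intro h
    exact absurd (Finset.mem_univ _) h

theorem alg_zero : (model b).alg 0 = W b (S 0) := by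
  refine le_antisymm (StarAlgebra.adjoin_le ?_) (W_le b ?_)
  · have key : ∀ d : ZMod 4 → ℂ, ι b (diagonal d) ∈ W b (S 0) := by
      intro d
      rw [ι_diagonal]
      refine sum_mem fun i _ => SMulMemClass.smul_mem _ (SMulMemClass.smul_mem _
        (sum_mem fun a _ => SMulMemClass.smul_mem _ (L_mem b ?_)))
      rw [sub_self, Finsupp.single_zero, zero_add]
      exact single_mem le_rfl a
    rintro _ ⟨d, rfl⟩
    exact key d
  · intro g hg
    have h1 : g = Finsupp.single 1 0 + Finsupp.single 0 (g 0) := by
      ext i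
      rcases Nat.eq_zero_or_pos i with rfl | hi
      · simp
      · rw [hg i hi, Finsupp.add_apply, Finsupp.single_eq_of_ne (by omega : i ≠ 0)]
        simp
    have h2 : L b g = ι b (diagonal fun j => ψ (g 0 * j)) := by
      rw [h1, L_eq, ι_diagonal]
      simp
    rw [h2]
    exact StarAlgebra.subset_adjoin ℂ _ ⟨_, rfl⟩

theorem alg_one : (model b).alg 1 = W b (S 1) := by
  refine le_antisymm (StarAlgebra.adjoin_le ?_) (W_le b ?_)
  · have key : ∀ m : Matrix (ZMod 4) (ZMod 4) ℂ, ι b m ∈ W b (S 1) := by
      intro m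
      rw [ι_apply]
      refine sum_mem fun i _ => sum_mem fun j _ => SMulMemClass.smul_mem _
        (SMulMemClass.smul_mem _ (sum_mem fun a _ => SMulMemClass.smul_mem _ (L_mem b ?_)))
      exact add_mem (single_mem le_rfl _) (single_mem (by omega) _)
    rintro _ ⟨m, rfl⟩
    exact key m
  · intro g hg
    have h1 : g = Finsupp.single 1 (g 1) + Finsupp.single 0 (g 0) := by
      ext i
      rcases Nat.lt_or_ge 1 i with hi | hi
      · rw [hg i hi, Finsupp.add_apply, Finsupp.single_eq_of_ne (by omega : i ≠ 0),
          Finsupp.single_eq_of_ne (by omega : i ≠ 1), add_zero]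
      · interval_cases i
        · simp
        · simp
    have h2 : L b g = ι b (∑ j : ZMod 4, ψ (g 0 * j) • Matrix.single (j + g 1) j 1) := by
      conv_lhs => rw [h1, L_eq]
      rw [map_sum]
      refine Finset.sum_congr rfl fun j _ => ?_
      rw [map_smul]
      congr 1
      rw [ι_apply, Finset.sum_eq_single (j + g 1)]
      · rw [Finset.sum_eq_single j]
        · simp
        · intro k _ hk
          rw [Matrix.single_apply_of_ne, zero_smul]
          intro h
          exact hk h.2.symm
        · intro h
          exact absurd (Finset.mem_univ _) h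
      · intro k _ hk
        refine Finset.sum_eq_zero fun l _ => ?_
        rw [Matrix.single_apply_of_ne, zero_smul]
        intro h
        exact hk h.1.symm
      · intro h
        exact absurd (Finset.mem_univ _) h
    rw [h2]
    exact StarAlgebra.subset_adjoin ℂ _ ⟨_, rfl⟩

theorem alg_succ (j : ℕ) : (model b).alg (j + 1) = W b (S (j + 1)) := by
  induction j with
  | zero => exact alg_one b
  | succ j ih =>
    refine le_antisymm (StarAlgebra.adjoin_le ?_) ?_
    · rintro x (hx | hx)
      · have hx' : x ∈ W b (S (j + 1)) := by rw [← ih]; exact hx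
        exact W_mono b (S_mono (Nat.le_succ _)) hx'
      · rw [Set.mem_singleton_iff] at hx
        subst hx
        rw [e_eq]
        exact SMulMemClass.smul_mem _ (sum_mem fun a _ => L_mem b (single_mem le_rfl a))
    · have hup : (model b).alg (j + 1) ≤ (model b).alg (j + 1 + 1) := (model b).alg_le_succ _
      have he : (model b).e j ∈ (model b).alg (j + 1 + 1) := (model b).e_mem j
      -- the Fourier transform
      have hP : ∀ a : ZMod 4, P b j a ∈ (model b).alg (j + 1 + 1) := by
        intro a
        let V : ZMod 4 → (H →L[ℂ] H) := fun x => L b (Finsupp.single (j + 1) x)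
        have hV : ∀ x, V x ∈ (model b).alg (j + 1 + 1) := by
          intro x
          refine hup ?_
          rw [ih]
          exact L_mem b (single_mem le_rfl x)
        have h1 : ∀ x : ZMod 4, V x * (model b).e j * V (-x) =
            (1 / 4 : ℂ) • ∑ y : ZMod 4, ψ (x * y) • P b j y := by
          intro x
          rw [e_eq, mul_smul_comm, smul_mul_assoc, Finset.mul_sum, Finset.sum_mul]
          congr 1
          refine Finset.sum_congr rfl fun y _ => ?_
          show L b (Finsupp.single (j + 1) x) * P b j y * L b (Finsupp.single (j + 1) (-x)) = _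
          rw [mul_assoc, P_comm, Finsupp.single_eq_same, Finsupp.single_eq_of_ne (by omega),
            mul_smul_comm, ← mul_assoc, L_mul, ← Finsupp.single_add, add_neg_cancel,
            Finsupp.single_zero, L_zero, smul_mul_assoc, one_mul, smul_smul, c, B_single_left,
            Finsupp.single_eq_of_ne (by omega), mul_zero, AddChar.map_zero_eq_one, mul_one]
          congr 2
          ring
        have h2 : P b j a = ∑ x : ZMod 4, ψ (x * (-a)) • (V x * (model b).e j * V (-x)) := by
          have h3 : ∀ x : ZMod 4, ψ (x * (-a)) • (V x * (model b).e j * V (-x)) =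
              (1 / 4 : ℂ) • ∑ y : ZMod 4, ψ (x * (y - a)) • P b j y := by
            intro x
            rw [h1, smul_comm, Finset.smul_sum]
            congr 1
            refine Finset.sum_congr rfl fun y _ => ?_
            rw [smul_smul, ← AddChar.map_add_eq_mul]
            congr 2
            ring
          rw [Finset.sum_congr rfl fun x _ => h3 x, ← Finset.smul_sum, Finset.sum_comm,
            Finset.sum_eq_single a]
          · rw [← Finset.sum_smul, ψ_sum, if_pos (sub_self a), smul_smul]
            norm_num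
          · intro y _ hy
            rw [← Finset.sum_smul, ψ_sum, if_neg, zero_smul]
            exact sub_ne_zero.2 hy
          · intro h
            exact absurd (Finset.mem_univ _) h
        rw [h2]
        exact sum_mem fun x _ => SMulMemClass.smul_mem _ (mul_mem (mul_mem (hV x) he) (hV (-x)))
      refine W_le b fun g hg => ?_
      have h1 : g = g.erase (j + 2) + Finsupp.single (j + 2) (g (j + 2)) :=
        (Finsupp.erase_add_single _ _).symm
      have h2 : g.erase (j + 2) ∈ S (j + 1) := by
        intro i hi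
        by_cases hij : i = j + 2
        · rw [hij, Finsupp.erase_same]
        · rw [Finsupp.erase_ne hij]
          exact hg i (by omega)
      have h3 : L b (g.erase (j + 2)) ∈ (model b).alg (j + 1 + 1) := by
        refine hup ?_
        rw [ih]
        exact L_mem b h2
      have h4 := L_mul b (g.erase (j + 2)) (Finsupp.single (j + 2) (g (j + 2)))
      rw [← h1] at h4
      have h5 : L b g = (c (g.erase (j + 2)) (Finsupp.single (j + 2) (g (j + 2))))⁻¹ •
          (L b (g.erase (j + 2)) * P b j (g (j + 2))) := by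
        unfold P
        rw [h4, smul_smul, inv_mul_cancel₀, one_smul]
        intro h0
        have := c_norm (g.erase (j + 2)) (Finsupp.single (j + 2) (g (j + 2)))
        rw [h0, norm_zero] at this
        exact zero_ne_one this
      rw [h5]
      exact SMulMemClass.smul_mem _ (mul_mem h3 (hP _))

theorem alg_eq (j : ℕ) : (model b).alg j = W b (S j) := by
  rcases j with _ | j
  · exact alg_zero b
  · exact alg_succ b j

/-- The model is a tower of basic constructions. -/
theorem isTower : (model b).IsTower where
  norm_one := b.orthonormal.1 0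
  cyclic := by
    intro η h
    have h1 : ∀ g, ⟪b g, η⟫_ℂ = 0 := by
      intro g
      obtain ⟨j, hj⟩ : ∃ j, g ∈ S j := by
        refine ⟨g.support.sup id, fun i hi => ?_⟩
        by_contra h0
        have h2 : i ≤ g.support.sup id :=
          Finset.le_sup (f := id) (Finsupp.mem_support_iff.2 h0)
        omega
      have h2 := h j (L b g) (by rw [alg_eq]; exact L_mem b hj)
      have h3 : L b g (model b).Ω = b g := by
        show L b g (b 0) = b g
        rw [L_basis, c_zero_right, one_smul, add_zero]
      rw [h3] at h2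
      rw [← inner_conj_symm, h2, map_zero]
    have h2 : b.repr η = 0 := by
      ext g
      rw [b.repr_apply_apply, h1]
      rfl
    exact b.repr.map_eq_zero_iff.1 h2
  tracial := by
    intro j x hx y hy
    rw [alg_eq] at hx hy
    exact τ_tracial b (W_top b hx) (W_top b hy)
  star_e := e_star b
  idem_e := e_idem b
  comm := by
    intro j x hx
    rw [alg_eq] at hx
    exact e_comm b hx
  expect := by
    intro j x hx
    rw [alg_eq] at hx ⊢
    exact e_expect b hx
  markov := by
    intro j x hx
    rw [alg_eq] at hx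
    rw [e_markov b hx]
    norm_num

/-- The tower exists. -/
theorem exists_tower : ∃ D : Data 4 (lp (fun _ : G => ℂ) 2), D.IsTower :=
  ⟨model (HilbertBasis.ofRepr (LinearIsometryEquiv.refl ℂ _)), isTower _⟩

end Pool.Agent.H258.Spin.Model
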