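import Pool.Agent.H258.Spin.Core

/-!
# The tower of a spin model subfactor, and the elements which commute with the Jones projections
-/

namespace Pool.Agent.H258.Spin

open scoped InnerProductSpace ComplexOrder
open Matrix

variable {n : ℕ} {H : Type*} [NormedAddCommGroup H] [InnerProductSpace ℂ H] [CompleteSpace H]

namespace Data

variable (D : Data n H)

/-- The tower built from `ℂ ⊂ u Δ_n u*`. -/
noncomputable def sub (D : Data n H) (u : Matrix (Fin n) (Fin n) ℂ) :
    ℕ → StarSubalgebra ℂ (H →L[ℂ] H)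
  | 0 => ⊥
  | 1 => StarAlgebra.adjoin ℂ (Set.range fun d : Fin n → ℂ => D.ι (u * diagonal d * uᴴ))
  | (j + 2) => StarAlgebra.adjoin ℂ ((D.sub u (j + 1) : Set (H →L[ℂ] H)) ∪ {D.e j})

variable (u : Matrix (Fin n) (Fin n) ℂ)

theorem sub_le_succ (j : ℕ) : D.sub u j ≤ D.sub u (j + 1) := by
  rcases j with _ | j
  · exact bot_le
  · show D.sub u (j + 1) ≤ StarAlgebra.adjoin ℂ _
    intro x hx
    exact StarAlgebra.subset_adjoin ℂ _ (Or.inl hx)

theorem sub_mono {j k : ℕ} (h : j ≤ k) : D.sub u j ≤ D.sub u k := by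
  induction k, h using Nat.le_induction with
  | base => exact le_rfl
  | succ k _ ih => exact ih.trans (D.sub_le_succ u k)

theorem sub_le_alg (j : ℕ) : D.sub u j ≤ D.alg j := by
  have h1 : ∀ j, D.sub u (j + 1) ≤ D.alg (j + 1) := by
    intro j
    induction j with
    | zero =>
      show StarAlgebra.adjoin ℂ _ ≤ StarAlgebra.adjoin ℂ _
      refine StarAlgebra.adjoin_le ?_
      rintro _ ⟨d, rfl⟩
      exact StarAlgebra.subset_adjoin ℂ _ ⟨_, rfl⟩
    | succ j ih =>
      show StarAlgebra.adjoin ℂ _ ≤ StarAlgebra.adjoin ℂ _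
      exact StarAlgebra.adjoin_mono (Set.union_subset_union_left _ ih)
  rcases j with _ | j
  · exact bot_le
  · exact h1 j

theorem sub_le_big (j : ℕ) : D.sub u j ≤ D.big := (D.sub_le_alg u j).trans (D.alg_le_big j)

theorem e_mem_sub (j : ℕ) : D.e j ∈ D.sub u (j + 2) :=
  StarAlgebra.subset_adjoin ℂ _ (Or.inr rfl)

/-- The elements of `u Δ u*` form an algebra. -/
theorem sub_one (hu : uᴴ * u = 1) {x : H →L[ℂ] H} (hx : x ∈ D.sub u 1) :
    ∃ d : Fin n → ℂ, x = D.ι (u * diagonal d * uᴴ) := by
  have hu' : u * uᴴ = 1 := mul_eq_one_comm.1 hu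
  induction hx using StarAlgebra.adjoin_induction with
  | mem x hx =>
    obtain ⟨d, rfl⟩ := hx
    exact ⟨d, rfl⟩
  | algebraMap c =>
    refine ⟨fun _ => c, ?_⟩
    have h1 : u * diagonal (fun _ => c) * uᴴ = algebraMap ℂ _ c := by
      have : (diagonal fun _ => c : Matrix (Fin n) (Fin n) ℂ) = c • 1 := by
        ext i j
        by_cases h : i = j <;> simp [diagonal, one_apply, h]
      rw [this, Matrix.mul_smul, Matrix.smul_mul, Matrix.mul_one, hu', Algebra.algebraMap_eq_smul_one]
    rw [h1]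
    exact (AlgHomClass.commutes D.ι c).symm
  | add x y _ _ hx hy =>
    obtain ⟨d, rfl⟩ := hx
    obtain ⟨d', rfl⟩ := hy
    refine ⟨d + d', ?_⟩
    rw [← map_add]
    congr 1
    rw [← Matrix.add_mul, ← Matrix.mul_add, diagonal_add]
    rfl
  | mul x y _ _ hx hy =>
    obtain ⟨d, rfl⟩ := hx
    obtain ⟨d', rfl⟩ := hy
    refine ⟨d * d', ?_⟩
    rw [← map_mul]
    congr 1
    calc u * diagonal d * uᴴ * (u * diagonal d' * uᴴ)
        = u * diagonal d * (uᴴ * u) * diagonal d' * uᴴ := by simp only [Matrix.mul_assoc]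
      _ = u * (diagonal d * diagonal d') * uᴴ := by
          rw [hu, Matrix.mul_one, Matrix.mul_assoc u]
      _ = _ := by rw [diagonal_mul_diagonal]; rfl
  | star x _ hx =>
    obtain ⟨d, rfl⟩ := hx
    refine ⟨star d, ?_⟩
    rw [← map_star]
    congr 1
    rw [star_eq_conjTranspose, conjTranspose_mul, conjTranspose_mul, conjTranspose_conjTranspose,
      diagonal_conjTranspose, Matrix.mul_assoc]

namespace IsTower

variable {D} (hD : D.IsTower)
include hD

/-- The trace vector is separating for the algebra of the tower. -/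
theorem eq_zero_of_τ {w : H →L[ℂ] H} (hw : w ∈ D.big) (h : D.τ (star w * w) = 0) : w = 0 := by
  refine hD.eq_zero_of_apply (hD.big_le_R hw) ?_
  rw [← inner_eq_τ] at h
  exact inner_self_eq_zero.1 h

theorem comm_sub {j : ℕ} {x : H →L[ℂ] H} (hx : x ∈ D.sub u j) : D.e j * x = x * D.e j :=
  hD.comm j x (D.sub_le_alg u j hx)

/-- The Jones relation. -/
theorem jones (j : ℕ) : D.e (j + 1) * D.e j * D.e (j + 1) = (1 / n : ℂ) • D.e (j + 1) := by
  obtain ⟨y, hy, h1, h2⟩ := hD.expect (j + 1) (D.e j) (D.e_mem j)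
  set w : H →L[ℂ] H := y - (1 / n : ℂ) • 1 with hw
  have hwm : w ∈ D.alg (j + 1) := sub_mem hy (SMulMemClass.smul_mem _ (one_mem _))
  have h3 : ∀ z ∈ D.alg (j + 1), D.τ (w * z) = 0 := by
    intro z hz
    rw [hw, sub_mul, τ_sub, h2 z hz, smul_mul_assoc, one_mul, τ_smul,
      hD.trace_big (D.alg_le_big _ (D.e_mem j)) (D.alg_le_big _ hz), hD.markov j z hz]
    ring
  have h4 : star w = 0 := by
    refine hD.eq_zero_of_τ (star_mem (D.alg_le_big _ hwm)) ?_
    rw [star_star]
    exact h3 _ (star_mem hwm)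
  have h5 : w = 0 := by
    have := congrArg star h4
    rwa [star_star, star_zero] at this
  have h6 : y = (1 / n : ℂ) • 1 := by
    rw [hw, sub_eq_zero] at h5
    exact h5
  rw [h1, h6, smul_mul_assoc, one_mul]

theorem τ_ι (m : Matrix (Fin n) (Fin n) ℂ) :
    D.τ (D.ι m) = ∑ i, m i i * D.τ (D.ι (Matrix.single i i 1)) := by
  have h0 : ∀ i j, i ≠ j → D.τ (D.ι (Matrix.single i j 1)) = 0 := by
    intro i j hij
    have h1 : Matrix.single i j (1 : ℂ) = Matrix.single i i 1 * Matrix.single i j 1 := by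
      rw [Matrix.single_mul_single_same, mul_one]
    have h2 : Matrix.single i j (1 : ℂ) * Matrix.single i i 1 = 0 := by
      rw [Matrix.single_mul_single_of_ne]
      exact hij.symm
    rw [h1, map_mul, hD.tracial 1 _ (D.ι_mem _) _ (D.ι_mem _), ← map_mul, h2, map_zero]
    simp [τ]
  have h1 : m = ∑ i, ∑ j, m i j • Matrix.single i j (1 : ℂ) := by
    conv_lhs => rw [Matrix.matrix_eq_sum_single m]
    refine Finset.sum_congr rfl fun i _ => Finset.sum_congr rfl fun j _ => ?_
    rw [Matrix.smul_single, smul_eq_mul, mul_one]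
  have h2 : ∀ (s : Finset (Fin n)) (f : Fin n → (H →L[ℂ] H)),
      D.τ (∑ i ∈ s, f i) = ∑ i ∈ s, D.τ (f i) := by
    intro s f
    induction s using Finset.induction_on with
    | empty => simp [τ]
    | insert a s ha ih => rw [Finset.sum_insert ha, Finset.sum_insert ha, τ_add, ih]
  conv_lhs => rw [h1, map_sum]
  rw [h2]
  refine Finset.sum_congr rfl fun i _ => ?_
  rw [map_sum, h2]
  rw [Finset.sum_eq_single i]
  · rw [map_smul, τ_smul]
  · intro j _ hj
    rw [map_smul, τ_smul, h0 i j hj.symm, mul_zero]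
  · intro h
    exact absurd (Finset.mem_univ i) h

omit hD in
theorem alg_zero {y : H →L[ℂ] H} (hy : y ∈ D.alg 0) : ∃ f : Fin n → ℂ, y = D.ι (diagonal f) := by
  have h3 : D.alg 0 = D.sub 1 1 := by
    show StarAlgebra.adjoin ℂ _ = StarAlgebra.adjoin ℂ _
    congr 1
    ext z
    simp
  rw [h3] at hy
  obtain ⟨f, hf⟩ := D.sub_one 1 (by simp) hy
  exact ⟨f, by simpa using hf⟩

/-- The expectation in the tower built from `ℂ ⊂ u Δ_n u*`, first step. -/
theorem expect_zero (hu : u * uᴴ = 1) (hun : ∀ i j, ‖u i j‖ ^ 2 = 1 / n) {x : H →L[ℂ] H}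
    (hx : x ∈ D.sub u 1) : ∃ y ∈ D.sub u 0, D.e 0 * x * D.e 0 = y * D.e 0 := by
  have hu' : uᴴ * u = 1 := mul_eq_one_comm.1 hu
  obtain ⟨d, rfl⟩ := D.sub_one u hu' hx
  obtain ⟨y, hy, h1, h2⟩ := hD.expect 0 _ (D.ι_mem (u * diagonal d * uᴴ))
  obtain ⟨f, rfl⟩ := alg_zero hy
  set c : ℂ := (1 / n : ℂ) * ∑ k, d k with hc
  have hentry : ∀ i, (u * diagonal d * uᴴ) i i = c := by
    intro i
    rw [Matrix.mul_apply]
    simp only [mul_diagonal, conjTranspose_apply]
    rw [hc, Finset.mul_sum]
    refine Finset.sum_congr rfl fun k _ => ?_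
    have h3 : u i k * star (u i k) = (1 / n : ℂ) := by
      have h4 : u i k * star (u i k) = ((‖u i k‖ ^ 2 : ℝ) : ℂ) := by
        rw [← Complex.normSq_eq_norm_sq, Complex.normSq_eq_conj_mul_self, mul_comm]
        rfl
      rw [h4, hun]
      push_cast
      ring
    calc u i k * d k * star (u i k) = (u i k * star (u i k)) * d k := by ring
      _ = _ := by rw [h3]
  set w : H →L[ℂ] H := D.ι (diagonal fun i => f i - c) with hw
  have hwm : w ∈ D.alg 0 := StarAlgebra.subset_adjoin ℂ _ ⟨_, rfl⟩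
  have hwf : D.ι (diagonal f) = w + c • 1 := by
    have h3 : (c • 1 : H →L[ℂ] H) = D.ι (c • 1) := by rw [map_smul, map_one]
    rw [h3, hw, ← map_add]
    congr 1
    ext i j
    by_cases h : i = j <;> simp [diagonal, one_apply, h]
  have h3 : w = 0 := by
    have h4 : star w = 0 := by
      refine hD.eq_zero_of_τ (star_mem (D.alg_le_big _ hwm)) ?_
      rw [star_star]
      have h5 : w * star w = D.ι (diagonal f) * star w - c • star w := by
        rw [hwf, add_mul, smul_mul_assoc, one_mul]
        abel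
      rw [h5, τ_sub, τ_smul, h2 _ (star_mem hwm)]
      have h6 : star w = D.ι (diagonal fun i => star (f i - c)) := by
        rw [hw, ← map_star, star_eq_conjTranspose, diagonal_conjTranspose]
        rfl
      rw [h6, ← map_mul, hD.τ_ι, hD.τ_ι, Finset.mul_sum, sub_eq_zero]
      refine Finset.sum_congr rfl fun i _ => ?_
      rw [mul_diagonal, hentry, diagonal_apply_eq]
      ring
    have := congrArg star h4
    rwa [star_star, star_zero] at this
  refine ⟨c • 1, SMulMemClass.smul_mem c (one_mem _), ?_⟩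
  rw [h1, hwf, h3, zero_add]

omit hD in
/-- Membership in the span of `B ∪ B e B`. -/
theorem sub_decomp {B : StarSubalgebra ℂ (H →L[ℂ] H)} {e : H →L[ℂ] H} (he : star e = e)
    (hB : ∀ x ∈ B, ∃ y ∈ B, e * x * e = y * e) {x : H →L[ℂ] H}
    (hx : x ∈ StarAlgebra.adjoin ℂ ((B : Set (H →L[ℂ] H)) ∪ {e})) :
    x ∈ Submodule.span ℂ ((B : Set (H →L[ℂ] H)) ∪ {z | ∃ a ∈ B, ∃ b ∈ B, z = a * e * b}) := by
  set S := Submodule.span ℂ ((B : Set (H →L[ℂ] H)) ∪ {z | ∃ a ∈ B, ∃ b ∈ B, z = a * e * b})
    with hS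
  have hl : ∀ z ∈ B, z ∈ S := fun z hz => Submodule.subset_span (Or.inl hz)
  have hr : ∀ a ∈ B, ∀ b ∈ B, a * e * b ∈ S := fun a ha b hb =>
    Submodule.subset_span (Or.inr ⟨a, ha, b, hb, rfl⟩)
  have hmul : ∀ x ∈ S, ∀ y ∈ S, x * y ∈ S := by
    intro x hx y hy
    induction hx using Submodule.span_induction with
    | zero => rw [zero_mul]; exact S.zero_mem
    | add x x' _ _ h h' => rw [add_mul]; exact S.add_mem h h'
    | smul c x _ h => rw [smul_mul_assoc]; exact S.smul_mem c h
    | mem x hx =>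
      induction hy using Submodule.span_induction with
      | zero => rw [mul_zero]; exact S.zero_mem
      | add y y' _ _ h h' => rw [mul_add]; exact S.add_mem h h'
      | smul c y _ h => rw [mul_smul_comm]; exact S.smul_mem c h
      | mem y hy =>
        rcases hx with hx | ⟨a, ha, b, hb, rfl⟩
        · rcases hy with hy | ⟨a', ha', b', hb', rfl⟩
          · exact hl _ (mul_mem hx hy)
          · rw [show x * (a' * e * b') = (x * a') * e * b' by noncomm_ring]
            exact hr _ (mul_mem hx ha') _ hb'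
        · rcases hy with hy | ⟨a', ha', b', hb', rfl⟩
          · rw [show a * e * b * y = a * e * (b * y) by noncomm_ring]
            exact hr _ ha _ (mul_mem hb hy)
          · obtain ⟨c, hc, hce⟩ := hB (b * a') (mul_mem hb ha')
            have : a * e * b * (a' * e * b') = (a * c) * e * b' := by
              calc a * e * b * (a' * e * b') = a * (e * (b * a') * e) * b' := by noncomm_ring
                _ = a * (c * e) * b' := by rw [hce]
                _ = _ := by noncomm_ring
            rw [this]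
            exact hr _ (mul_mem ha hc) _ hb'
  have hstar : ∀ x ∈ S, star x ∈ S := by
    intro x hx
    induction hx using Submodule.span_induction with
    | zero => rw [star_zero]; exact S.zero_mem
    | add x x' _ _ h h' => rw [star_add]; exact S.add_mem h h'
    | smul c x _ h => rw [star_smul]; exact S.smul_mem _ h
    | mem x hx =>
      rcases hx with hx | ⟨a, ha, b, hb, rfl⟩
      · exact hl _ (star_mem hx)
      · rw [star_mul, star_mul, he, ← mul_assoc]
        exact hr _ (star_mem hb) _ (star_mem ha)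
  induction hx using StarAlgebra.adjoin_induction with
  | mem x hx =>
    rcases hx with hx | hx
    · exact hl _ hx
    · rw [Set.mem_singleton_iff] at hx
      subst hx
      rw [show x = 1 * x * 1 by noncomm_ring]
      exact hr _ (one_mem _) _ (one_mem _)
  | algebraMap c => exact hl _ (algebraMap_mem B c)
  | add x y _ _ hx hy => exact S.add_mem hx hy
  | mul x y _ _ hx hy => exact hmul x hx y hy
  | star x _ hx => exact hstar x hx

/-- The expectation in the tower built from `ℂ ⊂ u Δ_n u*`. -/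
theorem expect_sub (hu : IsHadamard u) (j : ℕ) {x : H →L[ℂ] H} (hx : x ∈ D.sub u (j + 1)) :
    ∃ y ∈ D.sub u j, D.e j * x * D.e j = y * D.e j := by
  induction j generalizing x with
  | zero => exact hD.expect_zero u hu.1 hu.2 hx
  | succ j ih =>
    have hB : ∀ z ∈ D.sub u (j + 1), ∃ y ∈ D.sub u (j + 1), D.e j * z * D.e j = y * D.e j := by
      intro z hz
      obtain ⟨y, hy, h⟩ := ih hz
      exact ⟨y, D.sub_le_succ u j hy, h⟩
    have key : ∀ x ∈ Submodule.span ℂ ((D.sub u (j + 1) : Set (H →L[ℂ] H)) ∪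
        {z | ∃ a ∈ D.sub u (j + 1), ∃ b ∈ D.sub u (j + 1), z = a * D.e j * b}),
        ∃ y ∈ D.sub u (j + 1), D.e (j + 1) * x * D.e (j + 1) = y * D.e (j + 1) := by
      intro x hx
      induction hx using Submodule.span_induction with
      | zero => exact ⟨0, zero_mem _, by simp⟩
      | add x y _ _ h h' =>
        obtain ⟨a, ha, hxa⟩ := h
        obtain ⟨b, hb, hyb⟩ := h'
        exact ⟨a + b, add_mem ha hb, by rw [mul_add, add_mul, hxa, hyb, add_mul]⟩
      | smul c x _ h =>
        obtain ⟨a, ha, hxa⟩ := h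
        exact ⟨c • a, SMulMemClass.smul_mem c ha, by
          rw [mul_smul_comm, smul_mul_assoc, hxa, smul_mul_assoc]⟩
      | mem x hx =>
        rcases hx with hx | ⟨a, ha, b, hb, rfl⟩
        · refine ⟨x, hx, ?_⟩
          rw [hD.comm_sub u hx, mul_assoc, hD.idem_e]
        · refine ⟨(1 / n : ℂ) • (a * b), SMulMemClass.smul_mem _ (mul_mem ha hb), ?_⟩
          calc D.e (j + 1) * (a * D.e j * b) * D.e (j + 1)
              = (D.e (j + 1) * a) * D.e j * (b * D.e (j + 1)) := by noncomm_ring
            _ = (a * D.e (j + 1)) * D.e j * (D.e (j + 1) * b) := by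
                rw [hD.comm_sub u ha, hD.comm_sub u hb]
            _ = a * (D.e (j + 1) * D.e j * D.e (j + 1)) * b := by noncomm_ring
            _ = (1 / n : ℂ) • (a * (D.e (j + 1) * b)) := by
                rw [hD.jones, mul_smul_comm, smul_mul_assoc, mul_assoc]
            _ = _ := by
                rw [hD.comm_sub u hb, smul_mul_assoc, mul_assoc]
    exact key x (sub_decomp (hD.star_e j) hB hx)

end IsTower

end Data

end Pool.Agent.H258.Spin
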